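import Pool.Agent.Lib.MP_0430e4_lc.Ferm.FIN
import Pool.Agent.Lib.MP_0430e4_lc.QB.GENU

/-!
# Module ADAPT: Theorem F from Theorem Q
-/

set_option autoImplicit false

namespace Pool.Agent.Lib.MP_0430e4_lc.Ferm

open Finset Matrix

/-- **Theorem F** for general weights satisfying the secular equations. -/
theorem ell_le_of_sec {n : ℕ} (p w : Fin (n + 1) → ℝ) (lam : Fin n → ℝ)
    (hp0 : ∀ i, 0 < p i) (hp1 : ∀ i, p i ≤ 1 / 2) (hl0 : ∀ i, 0 < lam i) (hl1 : ∀ i, lam i < 1 / 2)
    (hw : ∀ i, 0 < w i) (hw1 : ∑ i, w i = 1) (hinj : Function.Injective lam)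
    (hne : ∀ i j, lam i ≠ p j)
    (hsec : ∀ j, ∑ i, w i / ((1 - 2 * p i) ^ 2 - (1 - 2 * lam j) ^ 2) = 0)
    {δ : ℝ} (hδ : 0 < δ) (hs : 1 - 2 * δ ≤ ∑ j, w j * (2 * Real.sqrt (p j * (1 - p j)))) :
    Tensor.ell δ ≤ (∑ i, Real.binEntropy (p i) - ∑ j, Real.binEntropy (lam j)) / Real.log 2 := by
  have hw' : ∀ i, 0 ≤ w i := fun i => (hw i).le
  have hp0' : ∀ i, 0 ≤ p i := fun i => (hp0 i).le
  have hp1' : ∀ i, p i ≤ 1 := fun i => by linarith [hp1 i]
  have hl0' : ∀ i, 0 ≤ lam i := fun i => (hl0 i).le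
  have hl1' : ∀ i, lam i ≤ 1 := fun i => by linarith [hl1 i]
  obtain ⟨V, h1, h2, h3⟩ := xbd_spec p w lam hp0 hp1 hl0 hl1 hw hw1 hinj hne hsec
  have hSS : Matrix.diagonal (fun a => Real.sqrt (xw p a)) * Matrix.diagonal
      (fun a => Real.sqrt (xw p a)) = Xm p := by
    rw [Matrix.diagonal_mul_diagonal]
    unfold Xm
    congr 1
    funext a
    exact Real.mul_self_sqrt (xw_nonneg p hp0' hp1' a)
  have hq := QB.quantum_bound_U (κ := Fin (n + 1) → Bool) (U := gam w)
    (S := Matrix.diagonal (fun a => Real.sqrt (xw p a))) (gam_transpose w)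
    (gam_mul_self w hw' hw1) (Matrix.diagonal_transpose _) (V₁ := 1) (by simp) (by simp)
    (x := xw p) (xw_nonneg p hp0' hp1') (xw_sum p)
    (by rw [hSS]; simp [Xm]) (V₂ := V) h2 h1 (y := fun s => (1 / 2 : ℝ) * xw lam s.1)
    (fun s => mul_nonneg (by norm_num) (xw_nonneg lam hl0' hl1' _))
    (by
      rw [hSS]
      have : (1 / 2 : ℝ) • (Xm p + gam w * Xm p * gam w) = Xbd p w := rfl
      rw [this, ← h3, Matrix.mul_assoc, h2, Matrix.mul_one])
    hδ
    (by
      refine le_trans hs (le_of_eq ?_)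
      rw [← affinity p w hp0' hp1' hw', Matrix.trace]
      apply Finset.sum_congr rfl
      intro a _
      rw [Matrix.diag_apply, Matrix.mul_apply]
      apply Finset.sum_congr rfl
      intro b _
      rw [Matrix.mul_diagonal, Matrix.diagonal_mul]
      have hsym : gam w b a = gam w a b := by
        conv_lhs => rw [← gam_transpose w]
        rfl
      rw [hsym, Real.sqrt_mul (xw_nonneg p hp0' hp1' a)]
      ring)
  rw [half_entropy lam hl0' hl1', xw_entropy p hp0' hp1'] at hq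
  refine le_trans hq (le_of_eq ?_)
  have hlog : Real.log 2 ≠ 0 := (Real.log_pos one_lt_two).ne'
  field_simp
  ring

/-- **Theorem F** with the interlacing weights. -/
theorem ell_le_F {n : ℕ} (p : Fin (n + 1) → ℝ) (lam : Fin n → ℝ)
    (hp0 : ∀ i, 0 < p i) (hp1 : ∀ i, p i ≤ 1 / 2)
    (hint : ∀ j : Fin n, lam j < p j.castSucc ∧ p j.succ < lam j)
    {δ : ℝ} (hδ : 0 < δ)
    (hs : 1 - 2 * δ ≤ ∑ j, wgt (fun i => (1 - 2 * p i) ^ 2) (fun j => (1 - 2 * lam j) ^ 2) j
      * (2 * Real.sqrt (p j * (1 - p j)))) :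
    Tensor.ell δ ≤ (∑ i, Real.binEntropy (p i) - ∑ j, Real.binEntropy (lam j)) / Real.log 2 := by
  have hl0 : ∀ i, 0 < lam i := fun i => lt_trans (hp0 _) (hint i).2
  have hl1 : ∀ i, lam i < 1 / 2 := fun i => lt_of_lt_of_le (hint i).1 (hp1 _)
  have hpanti : StrictAnti p := by
    rw [Fin.strictAnti_iff_succ_lt]
    intro i
    exact lt_trans (hint i).2 (hint i).1
  have hinterl : Interl (fun i => (1 - 2 * p i) ^ 2) (fun j => (1 - 2 * lam j) ^ 2) := by
    intro j
    have h1 := (hint j).1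
    have h2 := (hint j).2
    have h3 := hp1 j.castSucc
    have h4 := hl1 j
    constructor
    · show (1 - 2 * p j.castSucc) ^ 2 < (1 - 2 * lam j) ^ 2
      nlinarith
    · show (1 - 2 * lam j) ^ 2 < (1 - 2 * p j.succ) ^ 2
      nlinarith
  have hne : ∀ i j, lam i ≠ p j := by
    intro i j h
    rcases le_or_gt j i.castSucc with hj | hj
    · have := hpanti.antitone hj
      have := (hint i).1
      linarith
    · have hj' : i.succ ≤ j := by
        rw [Fin.le_iff_val_le_val, Fin.val_succ]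
        rw [Fin.lt_def, Fin.val_castSucc] at hj
        omega
      have := hpanti.antitone hj'
      have := (hint i).2
      linarith
  have hlanti : StrictAnti lam := by
    intro i j hij
    have hj' : i.succ ≤ j.castSucc := by
      rw [Fin.le_iff_val_le_val, Fin.val_succ, Fin.val_castSucc]
      rw [Fin.lt_def] at hij
      omega
    have := hpanti.antitone hj'
    have := (hint i).2
    have := (hint j).1
    linarith
  exact ell_le_of_sec p _ lam hp0 hp1 hl0 hl1 (wgt_pos _ _ hinterl) (wgt_sum _ _ hinterl)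
    hlanti.injective hne (wgt_sec _ _ hinterl) hδ hs

end Pool.Agent.Lib.MP_0430e4_lc.Ferm
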