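import Mathlib

/-!
# Free fermion (Gaussian) states for Theorem F

Real Jordan-Wigner matrices on the functions on `Fin n → Bool`, the product weights `xw p`, the
Majorana `gam w = ∑ √w_j ψ_j` and the averaged matrix `Xbd = (X + U X U)/2`.
-/

set_option autoImplicit false

namespace Pool.Agent.Lib.MP_0430e4_lc.Ferm

open Finset Matrix

/-- flip the bit `j` -/
def fl {n : ℕ} (a : Fin n → Bool) (j : Fin n) : Fin n → Bool := Function.update a j (!(a j))

/-- Jordan-Wigner sign: product of `(-1)^(a_i)` over the bits `i < j` -/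
def sgn {n : ℕ} (j : Fin n) (a : Fin n → Bool) : ℝ :=
  ∏ i ∈ univ.filter (fun i => i < j), (if a i = true then (-1 : ℝ) else 1)

/-- the Majorana matrix `ψ_j = a_j + a_jᵀ` (real symmetric) -/
def psi {n : ℕ} (j : Fin n) : Matrix (Fin n → Bool) (Fin n → Bool) ℝ :=
  Matrix.of fun b a => if b = fl a j then sgn j a else 0

/-- the Majorana matrix `φ_j = a_j - a_jᵀ` (real antisymmetric) -/
def phi {n : ℕ} (j : Fin n) : Matrix (Fin n → Bool) (Fin n → Bool) ℝ :=
  Matrix.of fun b a => if b = fl a j then (if a j = true then sgn j a else - sgn j a) else 0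

/-- parity `(-1)^(number of true bits)` -/
def par {n : ℕ} (a : Fin n → Bool) : ℝ := ∏ i, (if a i = true then (-1 : ℝ) else 1)

/-- the diagonal matrix of parity -/
def Pm (n : ℕ) : Matrix (Fin n → Bool) (Fin n → Bool) ℝ := Matrix.diagonal par

/-- product weights `∏ (p_i or 1 - p_i)` -/
def xw {n : ℕ} (p : Fin n → ℝ) (a : Fin n → Bool) : ℝ := ∏ i, (if a i = true then p i else 1 - p i)

/-- the diagonal matrix of the product weights -/
def Xm {n : ℕ} (p : Fin n → ℝ) : Matrix (Fin n → Bool) (Fin n → Bool) ℝ := Matrix.diagonal (xw p)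

/-- `U = ∑ √w_j ψ_j` -/
noncomputable def gam {n : ℕ} (w : Fin n → ℝ) : Matrix (Fin n → Bool) (Fin n → Bool) ℝ :=
  ∑ j, Real.sqrt (w j) • psi j

/-- `(X + U X U)/2` -/
noncomputable def Xbd {n : ℕ} (p w : Fin n → ℝ) : Matrix (Fin n → Bool) (Fin n → Bool) ℝ :=
  (1 / 2 : ℝ) • (Xm p + gam w * Xm p * gam w)

/-- the weights `w_i = ∏_j (a_j - z_i) / ∏_{j ≠ i} (z_j - z_i)` -/
noncomputable def wgt {n : ℕ} (z : Fin (n + 1) → ℝ) (a : Fin n → ℝ) (i : Fin (n + 1)) : ℝ :=
  (∏ j, (a j - z i)) / ∏ j ∈ univ.erase i, (z j - z i)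

/-- strict interlacing `z_0 < a_0 < z_1 < a_1 < ... < a_{n-1} < z_n` -/
def Interl {n : ℕ} (z : Fin (n + 1) → ℝ) (a : Fin n → ℝ) : Prop :=
  ∀ j : Fin n, z j.castSucc < a j ∧ a j < z j.succ

end Pool.Agent.Lib.MP_0430e4_lc.Ferm
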