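import Pool.Agent.Lib.MP_0430e4_lc.Ferm.Defs
import Mathlib.Analysis.SpecialFunctions.BinaryEntropy

/-!
# The robust form of the free fermion family

Given decreasing nodes `p_i ≤ 1/2`, positive weights `w_i` and points `lam_j` between the nodes at which
the secular function is nonnegative, its true roots lie between `lam_j` and `p_j`.
-/

set_option autoImplicit false

namespace Pool.Agent.Lib.MP_0430e4_lc.Ferm

open Finset

theorem strictAnti_of_hint {n : ℕ} {p : Fin (n + 1) → ℝ} {lam : Fin n → ℝ}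
    (hint : ∀ j : Fin n, lam j < p j.castSucc ∧ p j.succ < lam j) : StrictAnti p :=
  Fin.strictAnti_iff_succ_lt.2 fun j => (hint j).2.trans (hint j).1

/-- a point of the gap `j` is not a node, away from the left end -/
theorem sq_ne_of_gap {n : ℕ} {p : Fin (n + 1) → ℝ} {lam : Fin n → ℝ} (hp1 : ∀ i, p i ≤ 1 / 2)
    (hint : ∀ j : Fin n, lam j < p j.castSucc ∧ p j.succ < lam j) (j : Fin n) {x : ℝ}
    (hx : lam j ≤ x) (hx' : x ≤ p j.castSucc) (i : Fin (n + 1)) (hi : i ≠ j.castSucc) :
    (1 - 2 * p i) ^ 2 - (1 - 2 * x) ^ 2 ≠ 0 := by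
  have ha := strictAnti_of_hint hint
  have hne : (1 - 2 * p i) ^ 2 - (1 - 2 * x) ^ 2 = 4 * (x - p i) * (1 - p i - x) := by ring
  rw [hne]
  rcases lt_or_gt_of_ne hi with h | h
  · have h1 : x < p i := hx'.trans_lt (ha h)
    have h2 := hp1 i
    have : 0 < 1 - p i - x := by linarith
    exact mul_ne_zero (by intro h; linarith) this.ne'
  · have h3 : j.succ ≤ i := by
      rw [Fin.le_def, Fin.val_succ]
      have : (j.castSucc : ℕ) < i := h
      simpa using this
    have h1 : p i < x := ((ha.antitone h3).trans_lt (hint j).2).trans_le hx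
    have h2 := hp1 j.castSucc
    have : 0 < 1 - p i - x := by linarith
    exact mul_ne_zero (by intro h; linarith) this.ne'

/-- The roots of the secular equation. -/
theorem exists_roots {n : ℕ} (p w : Fin (n + 1) → ℝ) (lam : Fin n → ℝ)
    (hp1 : ∀ i, p i ≤ 1 / 2)
    (hint : ∀ j : Fin n, lam j < p j.castSucc ∧ p j.succ < lam j)
    (hw : ∀ i, 0 < w i)
    (hsec : ∀ j : Fin n, 0 ≤ ∑ i, w i / ((1 - 2 * p i) ^ 2 - (1 - 2 * lam j) ^ 2)) :
    ∃ mu : Fin n → ℝ, (∀ j, lam j ≤ mu j ∧ mu j < p j.castSucc) ∧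
      ∀ j, ∑ i, w i / ((1 - 2 * p i) ^ 2 - (1 - 2 * mu j) ^ 2) = 0 := by
  have key : ∀ j : Fin n, ∃ m : ℝ, (lam j ≤ m ∧ m < p j.castSucc) ∧
      ∑ i, w i / ((1 - 2 * p i) ^ 2 - (1 - 2 * m) ^ 2) = 0 := by
    intro j
    set F : ℝ → ℝ := fun x => w j.castSucc + ((1 - 2 * p j.castSucc) ^ 2 - (1 - 2 * x) ^ 2)
      * ∑ i ∈ univ.erase j.castSucc, w i / ((1 - 2 * p i) ^ 2 - (1 - 2 * x) ^ 2) with hF
    have hcont : ContinuousOn F (Set.Icc (lam j) (p j.castSucc)) := by
      refine continuousOn_const.add (ContinuousOn.mul (by fun_prop) ?_)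
      refine continuousOn_finsetSum _ fun i hi => ?_
      refine ContinuousOn.div continuousOn_const (by fun_prop) fun x hx => ?_
      exact sq_ne_of_gap hp1 hint j hx.1 hx.2 i (Finset.ne_of_mem_erase hi)
    have hFeq : ∀ x, lam j ≤ x → x < p j.castSucc →
        F x = ((1 - 2 * p j.castSucc) ^ 2 - (1 - 2 * x) ^ 2)
          * ∑ i, w i / ((1 - 2 * p i) ^ 2 - (1 - 2 * x) ^ 2) := by
      intro x hx hx'
      have hne : (1 - 2 * p j.castSucc) ^ 2 - (1 - 2 * x) ^ 2 ≠ 0 := by
        have : (1 - 2 * p j.castSucc) ^ 2 - (1 - 2 * x) ^ 2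
          = 4 * (x - p j.castSucc) * (1 - p j.castSucc - x) := by ring
        rw [this]
        have h2 := hp1 j.castSucc
        exact mul_ne_zero (by intro h; linarith) (by intro h; linarith)
      rw [← Finset.add_sum_erase univ _ (Finset.mem_univ j.castSucc), mul_add,
        mul_div_cancel₀ _ hne]
    have hneg : ∀ x, lam j ≤ x → x < p j.castSucc →
        (1 - 2 * p j.castSucc) ^ 2 - (1 - 2 * x) ^ 2 < 0 := by
      intro x hx hx'
      have : (1 - 2 * p j.castSucc) ^ 2 - (1 - 2 * x) ^ 2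
          = -(4 * ((p j.castSucc - x) * (1 - p j.castSucc - x))) := by ring
      rw [this]
      have h2 := hp1 j.castSucc
      have : 0 < (p j.castSucc - x) * (1 - p j.castSucc - x) :=
        mul_pos (by linarith) (by linarith)
      linarith
    have h1 : F (lam j) ≤ 0 := by
      rw [hFeq _ le_rfl (hint j).1]
      exact mul_nonpos_of_nonpos_of_nonneg (hneg _ le_rfl (hint j).1).le (hsec j)
    have h2 : 0 < F (p j.castSucc) := by
      simp only [hF, sub_self, zero_mul, add_zero]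
      exact hw _
    obtain ⟨x, hx, hx0⟩ := intermediate_value_Icc (hint j).1.le hcont ⟨h1, h2.le⟩
    have hxlt : x < p j.castSucc := by
      refine lt_of_le_of_ne hx.2 fun h => ?_
      rw [h] at hx0
      exact h2.ne' hx0
    refine ⟨x, ⟨hx.1, hxlt⟩, ?_⟩
    have := hFeq x hx.1 hxlt
    rw [hx0] at this
    exact (mul_eq_zero.1 this.symm).resolve_left (hneg x hx.1 hxlt).ne
  choose mu hmu using key
  exact ⟨mu, fun j => (hmu j).1, fun j => (hmu j).2⟩

theorem injective_of_gap {n : ℕ} {p : Fin (n + 1) → ℝ} {lam mu : Fin n → ℝ}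
    (hint : ∀ j : Fin n, lam j < p j.castSucc ∧ p j.succ < lam j)
    (hmu : ∀ j, lam j ≤ mu j ∧ mu j < p j.castSucc) : Function.Injective mu := by
  have ha := strictAnti_of_hint hint
  have h : StrictAnti mu := by
    intro i j hij
    have h1 : i.succ ≤ j.castSucc := by
      rw [Fin.le_def]; simpa using hij
    exact (hmu j).2.trans_le ((ha.antitone h1).trans ((hint i).2.le.trans (hmu i).1))
  exact h.injective

end Pool.Agent.Lib.MP_0430e4_lc.Ferm
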