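import Mathlib

set_option autoImplicit false

namespace Pool.Agent.Lib.MP_0430e4_lc.Ferm

open Finset

/-- `sech` of `a` times minus the logarithm of `ρ`. -/
noncomputable def se (ρ : ℝ) (a : ℕ) : ℝ := 2 * ρ ^ a / (1 + ρ ^ (2 * a))

/-- the Fermi factor -/
noncomputable def nn (ρ : ℝ) (a : ℕ) : ℝ := ρ ^ (2 * a) / (1 + ρ ^ (2 * a))

/-- `1 / (ρ^(-k) - ρ^k)`, an odd function of the integer `k`. -/
noncomputable def cs (ρ : ℝ) (k : ℤ) : ℝ := 1 / (ρ ^ (-k) - ρ ^ k)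

theorem cs_neg (ρ : ℝ) (k : ℤ) : cs ρ (-k) = -cs ρ k := by
  unfold cs
  rw [neg_neg, ← neg_sub, div_neg, one_div]

theorem sum_cs_odd (ρ : ℝ) (m : ℕ) :
    ∑ l ∈ range (2 * m), cs ρ (1 - 2 * m + 2 * l) = 0 := by
  have h := Finset.sum_range_reflect (fun l : ℕ => cs ρ (1 - 2 * m + 2 * l)) (2 * m)
  have h2 : ∑ l ∈ range (2 * m), cs ρ (1 - 2 * m + 2 * ((2 * m - 1 - l : ℕ) : ℤ))
      = - ∑ l ∈ range (2 * m), cs ρ (1 - 2 * m + 2 * l) := by
    rw [← Finset.sum_neg_distrib]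
    refine Finset.sum_congr rfl fun l hl => ?_
    rw [← cs_neg]
    congr 1
    have : l < 2 * m := Finset.mem_range.1 hl
    have e : ((2 * m - 1 - l : ℕ) : ℤ) = 2 * m - 1 - l := by omega
    rw [e]; ring
  linarith

theorem tele_odd (ρ : ℝ) (m M : ℕ) :
    ∑ i ∈ range M, (cs ρ (2 * i + 1 - 2 * m) - cs ρ (2 * i + 1 + 2 * m))
      = - ∑ l ∈ range (2 * m), cs ρ (2 * M + 1 - 2 * m + 2 * l) := by
  induction M with
  | zero =>
    rw [Finset.sum_range_zero]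
    have := sum_cs_odd ρ m
    simp only [Nat.cast_zero, mul_zero, zero_add]
    rw [this, neg_zero]
  | succ M ih =>
    rw [Finset.sum_range_succ, ih]
    have h := Finset.sum_range_sub (fun l : ℕ => cs ρ (2 * M + 1 - 2 * m + 2 * l)) (2 * m)
    rw [Finset.sum_sub_distrib] at h
    have e1 : ∑ l ∈ range (2 * m), cs ρ (2 * M + 1 - 2 * m + 2 * ((l + 1 : ℕ) : ℤ))
        = ∑ l ∈ range (2 * m), cs ρ (2 * ((M + 1 : ℕ) : ℤ) + 1 - 2 * m + 2 * l) := by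
      refine Finset.sum_congr rfl fun l _ => ?_
      congr 1; push_cast; ring
    rw [e1] at h
    have e2 : cs ρ (2 * M + 1 - 2 * m + 2 * ((2 * m : ℕ) : ℤ)) = cs ρ (2 * M + 1 + 2 * m) := by
      congr 1; push_cast; ring
    have e3 : cs ρ (2 * M + 1 - 2 * m + 2 * ((0 : ℕ) : ℤ)) = cs ρ (2 * M + 1 - 2 * m) := by
      congr 1; push_cast; ring
    simp only [e2, e3] at h
    linarith


theorem tele_even (ρ : ℝ) (m M : ℕ) :
    (cs ρ (-(2 * m + 1)) - cs ρ (2 * m + 1))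
      + 2 * ∑ i ∈ range M, (cs ρ (2 * i + 2 - (2 * m + 1)) - cs ρ (2 * i + 2 + (2 * m + 1)))
      = - (2 * ∑ l ∈ range (2 * m + 1), cs ρ (2 * M + 1 - 2 * m + 2 * l)) := by
  induction M with
  | zero =>
    rw [Finset.sum_range_zero, Finset.sum_range_succ]
    have := sum_cs_odd ρ m
    simp only [Nat.cast_zero, mul_zero, zero_add]
    rw [this, cs_neg]
    have e : cs ρ (1 - 2 * m + 2 * ((2 * m : ℕ) : ℤ)) = cs ρ (2 * m + 1) := by
      congr 1; push_cast; ring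
    rw [e]; ring
  | succ M ih =>
    rw [Finset.sum_range_succ, mul_add, ← add_assoc, ih]
    have h := Finset.sum_range_sub (fun l : ℕ => cs ρ (2 * M + 1 - 2 * m + 2 * l)) (2 * m + 1)
    rw [Finset.sum_sub_distrib] at h
    have e1 : ∑ l ∈ range (2 * m + 1), cs ρ (2 * M + 1 - 2 * m + 2 * ((l + 1 : ℕ) : ℤ))
        = ∑ l ∈ range (2 * m + 1), cs ρ (2 * ((M + 1 : ℕ) : ℤ) + 1 - 2 * m + 2 * l) := by
      refine Finset.sum_congr rfl fun l _ => ?_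
      congr 1; push_cast; ring
    rw [e1] at h
    have e2 : cs ρ (2 * M + 1 - 2 * m + 2 * ((2 * m + 1 : ℕ) : ℤ))
        = cs ρ (2 * M + 2 + (2 * m + 1)) := by
      congr 1; push_cast; ring
    have e3 : cs ρ (2 * M + 1 - 2 * m + 2 * ((0 : ℕ) : ℤ)) = cs ρ (2 * M + 2 - (2 * m + 1)) := by
      congr 1; push_cast; ring
    simp only [e2, e3] at h
    linarith

theorem cs_tendsto {ρ : ℝ} (h0 : 0 < ρ) (h1 : ρ < 1) (c : ℤ) :
    Filter.Tendsto (fun M : ℕ => cs ρ (2 * M + c)) Filter.atTop (nhds 0) := by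
  have key : Filter.Tendsto (fun M : ℕ => ρ ^ (-(2 * (M : ℤ) + c)) - ρ ^ (2 * (M : ℤ) + c))
      Filter.atTop Filter.atTop := by
    have hρ2 : ρ ^ 2 < 1 := by nlinarith
    have hinv : 1 < (ρ ^ 2)⁻¹ := (one_lt_inv₀ (by positivity)).2 hρ2
    have t1 : Filter.Tendsto (fun M : ℕ => ((ρ ^ 2)⁻¹) ^ M * ρ ^ (-c)) Filter.atTop
        Filter.atTop :=
      (tendsto_pow_atTop_atTop_of_one_lt hinv).atTop_mul_const (zpow_pos h0 _)
    have t2 : Filter.Tendsto (fun M : ℕ => (ρ ^ 2) ^ M * ρ ^ c) Filter.atTop (nhds 0) := by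
      have := (tendsto_pow_atTop_nhds_zero_of_lt_one (by positivity) hρ2).mul_const (ρ ^ c)
      rwa [zero_mul] at this
    have t3 := t1.atTop_add (t2.neg)
    refine t3.congr fun M => ?_
    have hne : ρ ≠ 0 := h0.ne'
    have ea : ρ ^ (-(2 * (M : ℤ))) = (ρ ^ (2 * M))⁻¹ := by
      rw [zpow_neg]; norm_cast
    have eb : ρ ^ (2 * (M : ℤ)) = ρ ^ (2 * M) := by norm_cast
    rw [← sub_eq_add_neg, neg_add, zpow_add₀ hne, zpow_add₀ hne, inv_pow, ← pow_mul, ea, eb]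
  have := key.inv_tendsto_atTop
  refine this.congr fun M => ?_
  simp [cs]

theorem tail_tendsto {ρ : ℝ} (h0 : 0 < ρ) (h1 : ρ < 1) (c : ℤ) (k : ℕ) :
    Filter.Tendsto (fun M : ℕ => ∑ l ∈ range k, cs ρ (2 * M + c + 2 * l)) Filter.atTop
      (nhds 0) := by
  have : Filter.Tendsto (fun M : ℕ => ∑ l ∈ range k, cs ρ (2 * M + (c + 2 * l))) Filter.atTop
      (nhds (∑ l ∈ range k, (0 : ℝ))) :=
    tendsto_finsetSum _ fun l _ => cs_tendsto h0 h1 _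
  rw [Finset.sum_const_zero] at this
  refine this.congr fun M => ?_
  refine Finset.sum_congr rfl fun l _ => ?_
  congr 1; ring

/-- the term of the secular sum -/
theorem term_eq {ρ : ℝ} (h0 : 0 < ρ) (h1 : ρ < 1) {a b : ℕ} (hab : a ≠ b) (hb : b ≠ 0) :
    se ρ a / ((1 - 2 * nn ρ a) ^ 2 - (1 - 2 * nn ρ b) ^ 2)
      = (1 + ρ ^ (2 * b)) ^ 2 / (2 * (1 - ρ ^ (2 * b)) * ρ ^ b)
        * (cs ρ (a - b) - cs ρ (a + b)) := by
  have hne : ρ ≠ 0 := h0.ne'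
  have hA : 0 < ρ ^ a := pow_pos h0 _
  have hB : 0 < ρ ^ b := pow_pos h0 _
  have hB1 : ρ ^ b < 1 := pow_lt_one₀ h0.le h1 hb
  have hA1 : ρ ^ a ≤ 1 := pow_le_one₀ h0.le h1.le
  have hAB : ρ ^ a ≠ ρ ^ b := fun h => hab (pow_right_injective₀ h0 h1.ne h)
  have e1 : cs ρ (a - b) = 1 / (ρ ^ b / ρ ^ a - ρ ^ a / ρ ^ b) := by
    unfold cs
    rw [neg_sub, zpow_sub₀ hne, zpow_sub₀ hne]
    norm_cast
  have e2 : cs ρ (a + b) = 1 / (1 / (ρ ^ a * ρ ^ b) - ρ ^ a * ρ ^ b) := by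
    unfold cs
    rw [zpow_neg, zpow_add₀ hne]
    norm_cast
    rw [one_div ((ρ ^ a * ρ ^ b : ℝ))]
  rw [e1, e2]
  unfold se nn
  rw [mul_comm 2 a, mul_comm 2 b, pow_mul, pow_mul]
  generalize ρ ^ a = A at *
  generalize ρ ^ b = B at *
  have hd1 : B / A - A / B ≠ 0 := by
    intro h
    have : B / A - A / B = (B - A) * (B + A) / (A * B) := by field_simp; ring
    rw [this] at h
    have hAB' : A * B ≠ 0 := by positivity
    rw [div_eq_zero_iff] at h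
    rcases h with h | h
    · rcases mul_eq_zero.1 h with h | h
      · exact hAB (by linarith)
      · linarith
    · exact hAB' h
  have hABlt : A * B < 1 := by nlinarith
  have hd2 : 1 / (A * B) - A * B ≠ 0 := by
    have : 1 < 1 / (A * B) := (one_lt_div (by positivity)).2 hABlt
    have h2 : A * B < 1 / (A * B) := by linarith
    exact (sub_pos.2 h2).ne'
  have hd3 : (1 - 2 * (A ^ 2 / (1 + A ^ 2))) ^ 2 - (1 - 2 * (B ^ 2 / (1 + B ^ 2))) ^ 2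
      = 4 * (B - A) * (B + A) * (1 - A * B) * (1 + A * B) / ((1 + A ^ 2) ^ 2 * (1 + B ^ 2) ^ 2) := by
    field_simp; ring
  have hBA : B - A ≠ 0 := sub_ne_zero.2 (Ne.symm hAB)
  have h1AB : 1 - A * B ≠ 0 := (sub_pos.2 hABlt).ne'
  have h1B : 1 - B ^ 2 ≠ 0 := by
    have : B ^ 2 < 1 := by nlinarith
    exact (sub_pos.2 this).ne'
  have hd1' : B / A - A / B = (B - A) * (B + A) / (A * B) := by field_simp; ring
  have hd2' : 1 / (A * B) - A * B = (1 - A * B) * (1 + A * B) / (A * B) := by field_simp; ring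
  rw [hd3, hd1', hd2']
  have hs : B + A ≠ 0 := by positivity
  have hs2 : 1 + A * B ≠ 0 := by positivity
  field_simp
  ring


/-! ### Elementary facts on the two sequences -/

theorem se_pos {ρ : ℝ} (h0 : 0 < ρ) (a : ℕ) : 0 < se ρ a := by
  unfold se; positivity

theorem se_le {ρ : ℝ} (h0 : 0 < ρ) (a : ℕ) : se ρ a ≤ 2 * ρ ^ a := by
  unfold se
  rw [div_le_iff₀ (by positivity)]
  have : 0 < ρ ^ a := pow_pos h0 _
  have : 0 < ρ ^ (2 * a) := pow_pos h0 _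
  nlinarith [mul_pos (pow_pos h0 a) (pow_pos h0 (2 * a))]

theorem se_summable {ρ : ℝ} (h0 : 0 < ρ) (h1 : ρ < 1) (e : ℕ → ℕ) (he : ∀ i, i ≤ e i) :
    Summable (fun i => se ρ (e i)) := by
  refine Summable.of_nonneg_of_le (fun i => (se_pos h0 _).le)
    (fun i => (se_le h0 (e i)).trans
      (mul_le_mul_of_nonneg_left (pow_le_pow_of_le_one h0.le h1.le (he i)) (by norm_num))) ?_
  exact (summable_geometric_of_lt_one h0.le h1).mul_left 2

theorem nn_pos {ρ : ℝ} (h0 : 0 < ρ) (a : ℕ) : 0 < nn ρ a := by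
  unfold nn; positivity

theorem nn_anti {ρ : ℝ} (h0 : 0 < ρ) (h1 : ρ < 1) {a b : ℕ} (h : a < b) : nn ρ b < nn ρ a := by
  unfold nn
  have : ρ ^ (2 * b) < ρ ^ (2 * a) := pow_lt_pow_right_of_lt_one₀ h0 h1 (by omega)
  have h2 : 0 < ρ ^ (2 * b) := pow_pos h0 _
  rw [div_lt_div_iff₀ (by positivity) (by positivity)]
  nlinarith

theorem nn_zero (ρ : ℝ) : nn ρ 0 = 1 / 2 := by
  unfold nn; norm_num

theorem nn_le_half {ρ : ℝ} (h0 : 0 < ρ) (h1 : ρ < 1) (a : ℕ) : nn ρ a ≤ 1 / 2 := by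
  rcases Nat.eq_zero_or_pos a with h | h
  · rw [h, nn_zero]
  · exact (nn_zero ρ ▸ nn_anti h0 h1 h).le

theorem se_eq {ρ : ℝ} (h0 : 0 < ρ) (a : ℕ) : 2 * Real.sqrt (nn ρ a * (1 - nn ρ a)) = se ρ a := by
  have e : nn ρ a * (1 - nn ρ a) = (ρ ^ a / (1 + ρ ^ (2 * a))) ^ 2 := by
    unfold nn
    rw [mul_comm 2 a, pow_mul]
    have : 0 < ρ ^ a := pow_pos h0 _
    field_simp
    ring
  rw [e, Real.sqrt_sq (by positivity)]
  unfold se; ring

/-- squares of `1 - 2 n_a` increase -/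
theorem sq_lt {ρ : ℝ} (h0 : 0 < ρ) (h1 : ρ < 1) {a b : ℕ} (h : a < b) :
    (1 - 2 * nn ρ a) ^ 2 < (1 - 2 * nn ρ b) ^ 2 := by
  have := nn_anti h0 h1 h
  have h2 := nn_le_half h0 h1 a
  have h3 := nn_pos h0 b
  nlinarith

theorem sq_le {ρ : ℝ} (h0 : 0 < ρ) (h1 : ρ < 1) {a b : ℕ} (h : a ≤ b) :
    (1 - 2 * nn ρ a) ^ 2 ≤ (1 - 2 * nn ρ b) ^ 2 := by
  rcases h.eq_or_lt with h | h
  · rw [h]
  · exact (sq_lt h0 h1 h).le

/-! ### Moving the tail to the last mode -/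

theorem tail_ineq {f g : ℕ → ℝ} {D G : ℝ} (n : ℕ) (hf : ∀ i, 0 ≤ f i) (hD : HasSum f D)
    (hg : ∀ i, n ≤ i → g i ≤ G)
    (hlim : Filter.Tendsto (fun M => ∑ i ∈ range M, f i * g i) Filter.atTop (nhds 0)) :
    0 ≤ ∑ i ∈ range n, f i * g i + (D - ∑ i ∈ range n, f i) * G := by
  have h2 : Filter.Tendsto (fun M => ∑ i ∈ range n, f i * g i
      + (∑ i ∈ range M, f i - ∑ i ∈ range n, f i) * G) Filter.atTop
      (nhds (∑ i ∈ range n, f i * g i + (D - ∑ i ∈ range n, f i) * G)) :=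
    ((hD.tendsto_sum_nat.sub_const _).mul_const G).const_add _
  refine le_of_tendsto_of_tendsto hlim h2 ?_
  filter_upwards [Filter.eventually_ge_atTop n] with M hM
  rw [← Finset.sum_range_add_sum_Ico (fun i => f i * g i) hM,
    ← Finset.sum_range_add_sum_Ico f hM, add_sub_cancel_left, Finset.sum_mul]
  have : ∑ i ∈ Finset.Ico n M, f i * g i ≤ ∑ i ∈ Finset.Ico n M, f i * G :=
    Finset.sum_le_sum fun i hi =>
      mul_le_mul_of_nonneg_left (hg i (Finset.mem_Ico.1 hi).1) (hf i)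
  linarith

/-- weights: the whole tail on the last mode -/
noncomputable def wt (f : ℕ → ℝ) (D : ℝ) (n : ℕ) : Fin (n + 1) → ℝ :=
  fun i => if (i : ℕ) < n then f i / D else (D - ∑ k ∈ range n, f k) / D

theorem wt_sum_mul {f : ℕ → ℝ} {D : ℝ} (n : ℕ) (g : ℕ → ℝ) :
    ∑ i : Fin (n + 1), wt f D n i * g i
      = (∑ i ∈ range n, f i * g i + (D - ∑ i ∈ range n, f i) * g n) / D := by
  rw [Fin.sum_univ_castSucc]
  have e1 : ∑ i : Fin n, wt f D n i.castSucc * g (i.castSucc : Fin (n + 1))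
      = ∑ i : Fin n, (f i * g i) / D := by
    refine Finset.sum_congr rfl fun i _ => ?_
    have : ((i.castSucc : Fin (n + 1)) : ℕ) < n := by simp
    rw [wt, if_pos this, Fin.val_castSucc]
    ring
  have e2 : wt f D n (Fin.last n) = (D - ∑ k ∈ range n, f k) / D := by
    rw [wt, if_neg (by simp)]
  rw [e1, e2, Fin.val_last, Fin.sum_univ_eq_sum_range (fun i => f i * g i / D), add_div,
    Finset.sum_div]
  ring

theorem wt_sum {f : ℕ → ℝ} {D : ℝ} (hD : 0 < D) (n : ℕ) : ∑ i : Fin (n + 1), wt f D n i = 1 := by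
  have := wt_sum_mul (f := f) (D := D) n (fun _ => 1)
  simp only [mul_one] at this
  rw [this, add_sub_cancel, div_self hD.ne']

theorem wt_ge {f : ℕ → ℝ} {D : ℝ} (hD : 0 < D) (hf : ∀ i, 0 ≤ f i) (hs : HasSum f D) (n : ℕ)
    (i : Fin (n + 1)) : f i / D ≤ wt f D n i := by
  unfold wt
  split_ifs with h
  · exact le_rfl
  · have hi : (i : ℕ) = n := by omega
    rw [hi]
    refine div_le_div_of_nonneg_right ?_ hD.le
    have := sum_le_hasSum (range (n + 1)) (fun i _ => hf i) hs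
    rw [Finset.sum_range_succ] at this
    linarith

theorem wt_pos {f : ℕ → ℝ} {D : ℝ} (hD : 0 < D) (hf : ∀ i, 0 < f i) (hs : HasSum f D) (n : ℕ)
    (i : Fin (n + 1)) : 0 < wt f D n i :=
  (div_pos (hf i) hD).trans_le (wt_ge hD (fun i => (hf i).le) hs n i)

/-! ### Branch I: odd modes -/

/-- the sequence of weights of branch I -/
noncomputable def fI (ρ : ℝ) (i : ℕ) : ℝ := se ρ (2 * i + 1)
/-- its sum -/
noncomputable def DI (ρ : ℝ) : ℝ := ∑' i, fI ρ i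

theorem fI_hasSum {ρ : ℝ} (h0 : 0 < ρ) (h1 : ρ < 1) : HasSum (fI ρ) (DI ρ) :=
  (se_summable h0 h1 (fun i => 2 * i + 1) (fun i => by omega)).hasSum

theorem DI_pos {ρ : ℝ} (h0 : 0 < ρ) (h1 : ρ < 1) : 0 < DI ρ :=
  lt_of_lt_of_le (se_pos h0 _) (le_hasSum (fI_hasSum h0 h1) 0 fun i _ => (se_pos h0 _).le)

theorem secI_tendsto {ρ : ℝ} (h0 : 0 < ρ) (h1 : ρ < 1) (j : ℕ) :
    Filter.Tendsto (fun M => ∑ i ∈ range M, fI ρ i
      * (1 / ((1 - 2 * nn ρ (2 * i + 1)) ^ 2 - (1 - 2 * nn ρ (2 * j + 2)) ^ 2)))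
      Filter.atTop (nhds 0) := by
  set K := (1 + ρ ^ (2 * (2 * j + 2))) ^ 2 / (2 * (1 - ρ ^ (2 * (2 * j + 2))) * ρ ^ (2 * j + 2))
    with hK
  have t := (tail_tendsto h0 h1 (1 - 2 * (j + 1)) (2 * (j + 1))).neg.const_mul K
  rw [neg_zero, mul_zero] at t
  refine t.congr fun M => ?_
  have tl := tele_odd ρ (j + 1) M
  have e1 : ∑ l ∈ range (2 * (j + 1)), cs ρ (2 * (M : ℤ) + (1 - 2 * ((j : ℤ) + 1)) + 2 * l)
      = ∑ l ∈ range (2 * (j + 1)), cs ρ (2 * M + 1 - 2 * ((j + 1 : ℕ) : ℤ) + 2 * l) := by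
    refine Finset.sum_congr rfl fun l _ => ?_
    congr 1; push_cast; ring
  rw [e1, ← tl, Finset.mul_sum]
  refine Finset.sum_congr rfl fun i _ => ?_
  have te := term_eq h0 h1 (a := 2 * i + 1) (b := 2 * j + 2) (by omega) (by omega)
  have e2 : ((2 * i + 1 : ℕ) : ℤ) - ((2 * j + 2 : ℕ) : ℤ) = 2 * i + 1 - 2 * ((j + 1 : ℕ) : ℤ) := by
    push_cast; ring
  have e3 : ((2 * i + 1 : ℕ) : ℤ) + ((2 * j + 2 : ℕ) : ℤ) = 2 * i + 1 + 2 * ((j + 1 : ℕ) : ℤ) := by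
    push_cast; ring
  rw [e2, e3] at te
  rw [← te, fI]
  ring

theorem secI {ρ : ℝ} (h0 : 0 < ρ) (h1 : ρ < 1) (n : ℕ) (j : Fin n) :
    0 ≤ ∑ i : Fin (n + 1), wt (fI ρ) (DI ρ) n i
      / ((1 - 2 * nn ρ (2 * i + 1)) ^ 2 - (1 - 2 * nn ρ (2 * j + 2)) ^ 2) := by
  have h := wt_sum_mul (f := fI ρ) (D := DI ρ) n
    (fun i => 1 / ((1 - 2 * nn ρ (2 * i + 1)) ^ 2 - (1 - 2 * nn ρ (2 * j + 2)) ^ 2))
  have e : ∑ i : Fin (n + 1), wt (fI ρ) (DI ρ) n i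
      / ((1 - 2 * nn ρ (2 * i + 1)) ^ 2 - (1 - 2 * nn ρ (2 * j + 2)) ^ 2)
      = ∑ i : Fin (n + 1), wt (fI ρ) (DI ρ) n i
      * (1 / ((1 - 2 * nn ρ (2 * i + 1)) ^ 2 - (1 - 2 * nn ρ (2 * j + 2)) ^ 2)) :=
    Finset.sum_congr rfl fun i _ => by ring
  rw [e, h]
  refine div_nonneg ?_ (DI_pos h0 h1).le
  refine tail_ineq n (fun i => (se_pos h0 _).le) (fI_hasSum h0 h1) (fun i hi => ?_)
    (secI_tendsto h0 h1 j)
  have hj := j.2
  refine one_div_le_one_div_of_le (sub_pos.2 (sq_lt h0 h1 (by omega))) ?_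
  exact sub_le_sub_right (sq_le h0 h1 (by omega)) _

/-! ### Branch II: even modes -/

/-- the sequence of weights of branch II -/
noncomputable def fII (ρ : ℝ) (i : ℕ) : ℝ := if i = 0 then 1 else 2 * se ρ (2 * i)
/-- its sum -/
noncomputable def DII (ρ : ℝ) : ℝ := ∑' i, fII ρ i

theorem fII_pos {ρ : ℝ} (h0 : 0 < ρ) (i : ℕ) : 0 < fII ρ i := by
  unfold fII
  split_ifs
  · exact one_pos
  · exact mul_pos two_pos (se_pos h0 _)

theorem fII_hasSum {ρ : ℝ} (h0 : 0 < ρ) (h1 : ρ < 1) : HasSum (fII ρ) (DII ρ) := by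
  refine Summable.hasSum ?_
  rw [← summable_nat_add_iff 1]
  have : (fun i => fII ρ (i + 1)) = fun i => 2 * se ρ (2 * (i + 1)) := by
    funext i; rw [fII, if_neg (by omega)]
  rw [this]
  exact (se_summable h0 h1 (fun i => 2 * (i + 1)) (fun i => by omega)).mul_left 2

theorem DII_pos {ρ : ℝ} (h0 : 0 < ρ) (h1 : ρ < 1) : 0 < DII ρ :=
  lt_of_lt_of_le (fII_pos h0 _) (le_hasSum (fII_hasSum h0 h1) 0 fun i _ => (fII_pos h0 _).le)

theorem se_zero (ρ : ℝ) : se ρ 0 = 1 := by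
  unfold se; norm_num

theorem secII_tendsto {ρ : ℝ} (h0 : 0 < ρ) (h1 : ρ < 1) (j : ℕ) :
    Filter.Tendsto (fun M => ∑ i ∈ range M, fII ρ i
      * (1 / ((1 - 2 * nn ρ (2 * i)) ^ 2 - (1 - 2 * nn ρ (2 * j + 1)) ^ 2)))
      Filter.atTop (nhds 0) := by
  rw [← Filter.tendsto_add_atTop_iff_nat 1]
  set K := (1 + ρ ^ (2 * (2 * j + 1))) ^ 2 / (2 * (1 - ρ ^ (2 * (2 * j + 1))) * ρ ^ (2 * j + 1))
    with hK
  have t := ((tail_tendsto h0 h1 (1 - 2 * j) (2 * j + 1)).const_mul 2).neg.const_mul K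
  rw [mul_zero, neg_zero, mul_zero] at t
  refine t.congr fun M => ?_
  have tl := tele_even ρ j M
  have e1 : ∑ l ∈ range (2 * j + 1), cs ρ (2 * (M : ℤ) + (1 - 2 * (j : ℤ)) + 2 * l)
      = ∑ l ∈ range (2 * j + 1), cs ρ (2 * M + 1 - 2 * j + 2 * l) := by
    refine Finset.sum_congr rfl fun l _ => ?_
    congr 1; ring
  rw [e1, ← tl, Finset.sum_range_succ', mul_add, add_comm]
  congr 1
  · rw [Finset.mul_sum, Finset.mul_sum]
    refine Finset.sum_congr rfl fun i _ => ?_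
    have te := term_eq h0 h1 (a := 2 * (i + 1)) (b := 2 * j + 1) (by omega) (by omega)
    have e2 : ((2 * (i + 1) : ℕ) : ℤ) - ((2 * j + 1 : ℕ) : ℤ) = 2 * i + 2 - (2 * j + 1) := by
      push_cast; ring
    have e3 : ((2 * (i + 1) : ℕ) : ℤ) + ((2 * j + 1 : ℕ) : ℤ) = 2 * i + 2 + (2 * j + 1) := by
      push_cast; ring
    rw [e2, e3] at te
    rw [← hK] at te
    have : K * (2 * (cs ρ (2 * i + 2 - (2 * j + 1)) - cs ρ (2 * i + 2 + (2 * j + 1))))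
      = 2 * (K * (cs ρ (2 * i + 2 - (2 * j + 1)) - cs ρ (2 * i + 2 + (2 * j + 1)))) := by ring
    rw [this, ← te, fII, if_neg (by omega)]
    ring
  · have te := term_eq h0 h1 (a := 0) (b := 2 * j + 1) (by omega) (by omega)
    have e2 : ((0 : ℕ) : ℤ) - ((2 * j + 1 : ℕ) : ℤ) = -(2 * j + 1) := by
      push_cast; ring
    have e3 : ((0 : ℕ) : ℤ) + ((2 * j + 1 : ℕ) : ℤ) = 2 * j + 1 := by
      push_cast; ring
    rw [e2, e3] at te
    rw [← te, se_zero, fII, if_pos rfl]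
    simp

theorem secII {ρ : ℝ} (h0 : 0 < ρ) (h1 : ρ < 1) (n : ℕ) (j : Fin n) :
    0 ≤ ∑ i : Fin (n + 1), wt (fII ρ) (DII ρ) n i
      / ((1 - 2 * nn ρ (2 * i)) ^ 2 - (1 - 2 * nn ρ (2 * j + 1)) ^ 2) := by
  have h := wt_sum_mul (f := fII ρ) (D := DII ρ) n
    (fun i => 1 / ((1 - 2 * nn ρ (2 * i)) ^ 2 - (1 - 2 * nn ρ (2 * j + 1)) ^ 2))
  have e : ∑ i : Fin (n + 1), wt (fII ρ) (DII ρ) n i
      / ((1 - 2 * nn ρ (2 * i)) ^ 2 - (1 - 2 * nn ρ (2 * j + 1)) ^ 2)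
      = ∑ i : Fin (n + 1), wt (fII ρ) (DII ρ) n i
      * (1 / ((1 - 2 * nn ρ (2 * i)) ^ 2 - (1 - 2 * nn ρ (2 * j + 1)) ^ 2)) :=
    Finset.sum_congr rfl fun i _ => by ring
  rw [e, h]
  refine div_nonneg ?_ (DII_pos h0 h1).le
  refine tail_ineq n (fun i => (fII_pos h0 _).le) (fII_hasSum h0 h1) (fun i hi => ?_)
    (secII_tendsto h0 h1 j)
  have hj := j.2
  refine one_div_le_one_div_of_le (sub_pos.2 (sq_lt h0 h1 (by omega))) ?_
  exact sub_le_sub_right (sq_le h0 h1 (by omega)) _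

end Pool.Agent.Lib.MP_0430e4_lc.Ferm
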