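import Pool.Agent.Lib.MP_0430e4_lc.Ferm.ENT

/-!
# Module AFF of Theorem F: the affinity
-/

set_option autoImplicit false

namespace Pool.Agent.Lib.MP_0430e4_lc.Ferm

open Finset Matrix

private theorem sgn_sq' {n : ℕ} (j : Fin n) (a : Fin n → Bool) : sgn j a * sgn j a = 1 := by
  unfold sgn
  rw [← Finset.prod_mul_distrib]
  refine Finset.prod_eq_one fun i _ => ?_
  split_ifs <;> norm_num

private theorem fl_inj {n : ℕ} (b : Fin n → Bool) : Function.Injective (fun j => fl b j) := by
  intro i j hij
  by_contra hne
  have h1 := congrFun hij i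
  simp only [fl, Function.update_self, Function.update_of_ne hne] at h1
  cases hb : b i <;> simp [hb] at h1

/-- the entries of `gam`, squared (an independent copy of `gam_apply_sq` of module JW) -/
private theorem gam_sq_aux {n : ℕ} (w : Fin n → ℝ) (hw : ∀ i, 0 ≤ w i) (a b : Fin n → Bool) :
    (gam w a b) ^ 2 = ∑ j, if a = fl b j then w j else 0 := by
  have hg : gam w a b = ∑ j, (if a = fl b j then Real.sqrt (w j) * sgn j b else 0) := by
    unfold gam psi
    rw [Matrix.sum_apply]
    refine Finset.sum_congr rfl fun j _ => ?_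
    rw [Matrix.smul_apply, Matrix.of_apply, smul_eq_mul]
    split_ifs <;> simp
  rw [hg]
  by_cases h : ∃ j, a = fl b j
  · obtain ⟨j, hj⟩ := h
    have hu : ∀ i, a = fl b i ↔ i = j := by
      intro i
      constructor
      · intro hi
        exact fl_inj b (hi.symm.trans hj)
      · rintro rfl
        exact hj
    simp only [hu, Finset.sum_ite_eq', Finset.mem_univ, if_true]
    rw [mul_pow, Real.sq_sqrt (hw j), sq, sgn_sq', mul_one]
  · push Not at h
    simp [h]

theorem affinity {n : ℕ} (p w : Fin n → ℝ) (h0 : ∀ i, 0 ≤ p i) (h1 : ∀ i, p i ≤ 1)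
    (hw : ∀ i, 0 ≤ w i) :
    ∑ a, ∑ b, Real.sqrt (xw p a * xw p b) * (gam w a b) ^ 2
      = ∑ j, w j * (2 * Real.sqrt (p j * (1 - p j))) := by
  rw [Finset.sum_comm]
  have hb : ∀ b : Fin n → Bool, ∑ a, Real.sqrt (xw p a * xw p b) * (gam w a b) ^ 2
      = ∑ j, w j * Real.sqrt (xw p (fl b j) * xw p b) := by
    intro b
    simp_rw [gam_sq_aux w hw, Finset.mul_sum]
    rw [Finset.sum_comm]
    refine Finset.sum_congr rfl fun j _ => ?_
    simp only [mul_ite, mul_zero, Finset.sum_ite_eq', Finset.mem_univ, if_true]
    ring
  simp_rw [hb]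
  rw [Finset.sum_comm]
  refine Finset.sum_congr rfl fun j _ => ?_
  rw [← Finset.mul_sum]
  congr 1
  have key : ∀ b : Fin n → Bool, Real.sqrt (xw p (fl b j) * xw p b)
      = ∏ i, (if i = j then Real.sqrt (p j * (1 - p j)) else (if b i = true then p i else 1 - p i)) := by
    intro b
    have hnn : ∀ i, 0 ≤ (if b i = true then p i else 1 - p i) := by
      intro i
      split_ifs
      · exact h0 i
      · linarith [h1 i]
    have e1 : xw p (fl b j) * xw p b = (p j * (1 - p j)) *
        (∏ i ∈ univ.erase j, (if b i = true then p i else 1 - p i)) ^ 2 := by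
      unfold xw
      rw [← Finset.mul_prod_erase univ _ (Finset.mem_univ j),
        ← Finset.mul_prod_erase univ (fun i => if b i = true then p i else 1 - p i)
          (Finset.mem_univ j)]
      have e2 : ∏ i ∈ univ.erase j, (if fl b j i = true then p i else 1 - p i)
          = ∏ i ∈ univ.erase j, (if b i = true then p i else 1 - p i) := by
        refine Finset.prod_congr rfl fun i hi => ?_
        rw [fl, Function.update_of_ne (Finset.ne_of_mem_erase hi)]
      rw [e2]
      have e3 : (if fl b j j = true then p j else 1 - p j) * (if b j = true then p j else 1 - p j)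
          = p j * (1 - p j) := by
        rw [fl, Function.update_self]
        cases b j <;> (simp; try ring)
      rw [sq, ← e3]
      ring
    rw [e1, Real.sqrt_mul (mul_nonneg (h0 j) (by linarith [h1 j])),
      Real.sqrt_sq (Finset.prod_nonneg fun i _ => hnn i),
      ← Finset.mul_prod_erase univ _ (Finset.mem_univ j)]
    simp only [if_true]
    congr 1
    refine Finset.prod_congr rfl fun i hi => ?_
    rw [if_neg (Finset.ne_of_mem_erase hi)]
  simp_rw [key]
  rw [sum_prod_bool (fun i b => if i = j then Real.sqrt (p j * (1 - p j))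
      else (if b = true then p i else 1 - p i)),
    ← Finset.mul_prod_erase univ _ (Finset.mem_univ j), Finset.prod_eq_one, mul_one]
  · simp only [if_true]
    ring
  · intro i hi
    simp [Finset.ne_of_mem_erase hi]

end Pool.Agent.Lib.MP_0430e4_lc.Ferm
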