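import Pool.Agent.Lib.MP_0430e4_lc.Ferm.Defs

/-!
# Module ENT of Theorem F: mass and entropy of the product weights
-/

set_option autoImplicit false

namespace Pool.Agent.Lib.MP_0430e4_lc.Ferm

open Finset Matrix

/-- a sum over bit strings of a product is a product of sums of two terms -/
theorem sum_prod_bool {n : ℕ} (G : Fin n → Bool → ℝ) :
    ∑ a : Fin n → Bool, ∏ i, G i (a i) = ∏ i, (G i true + G i false) := by
  rw [← Fintype.prod_sum]
  refine Finset.prod_congr rfl fun i _ => ?_
  rw [Fintype.sum_bool]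

/-- entropy function of a product -/
theorem negMulLog_prod {ι : Type*} [DecidableEq ι] (s : Finset ι) (f : ι → ℝ) :
    Real.negMulLog (∏ i ∈ s, f i) = ∑ i ∈ s, Real.negMulLog (f i) * ∏ j ∈ s.erase i, f j := by
  induction s using Finset.induction_on with
  | empty => simp
  | insert a s ha ih =>
    rw [Finset.prod_insert ha, Real.negMulLog_mul, ih, Finset.sum_insert ha,
      Finset.erase_insert ha, Finset.mul_sum]
    congr 1
    · ring
    · refine Finset.sum_congr rfl fun i hi => ?_
      have hne : a ≠ i := fun h => ha (h ▸ hi)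
      rw [Finset.erase_insert_of_ne hne, Finset.prod_insert (fun h => ha (Finset.mem_of_mem_erase h))]
      ring

theorem xw_sum {n : ℕ} (p : Fin n → ℝ) : ∑ a, xw p a = 1 := by
  unfold xw
  rw [sum_prod_bool (fun i b => if b = true then p i else 1 - p i)]
  refine Finset.prod_eq_one fun i _ => ?_
  simp

theorem xw_nonneg {n : ℕ} (p : Fin n → ℝ) (h0 : ∀ i, 0 ≤ p i) (h1 : ∀ i, p i ≤ 1) (a : Fin n → Bool) :
    0 ≤ xw p a := by
  unfold xw
  refine Finset.prod_nonneg fun i _ => ?_
  split_ifs
  · exact h0 i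
  · linarith [h1 i]

theorem xw_entropy {n : ℕ} (p : Fin n → ℝ) (h0 : ∀ i, 0 ≤ p i) (h1 : ∀ i, p i ≤ 1) :
    ∑ a, Real.negMulLog (xw p a) = ∑ i, Real.binEntropy (p i) := by
  have _ := h0
  have _ := h1
  have key : ∀ a : Fin n → Bool, Real.negMulLog (xw p a)
      = ∑ i, ∏ j, (if j = i then Real.negMulLog (if a j = true then p j else 1 - p j)
          else (if a j = true then p j else 1 - p j)) := by
    intro a
    unfold xw
    rw [negMulLog_prod]
    refine Finset.sum_congr rfl fun i _ => ?_
    rw [← Finset.mul_prod_erase univ _ (Finset.mem_univ i)]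
    simp only [if_true]
    congr 1
    refine Finset.prod_congr rfl fun j hj => ?_
    rw [if_neg (Finset.ne_of_mem_erase hj)]
  simp_rw [key]
  rw [Finset.sum_comm]
  refine Finset.sum_congr rfl fun i _ => ?_
  rw [sum_prod_bool (fun j b => if j = i then Real.negMulLog (if b = true then p j else 1 - p j)
          else (if b = true then p j else 1 - p j)),
    ← Finset.mul_prod_erase univ _ (Finset.mem_univ i), Finset.prod_eq_one, mul_one]
  · simp [Real.binEntropy_eq_negMulLog_add_negMulLog_one_sub]
  · intro j hj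
    simp [Finset.ne_of_mem_erase hj]

theorem half_entropy {n : ℕ} (lam : Fin n → ℝ) (h0 : ∀ i, 0 ≤ lam i) (h1 : ∀ i, lam i ≤ 1) :
    ∑ s : (Fin n → Bool) × Bool, Real.negMulLog ((1 / 2 : ℝ) * xw lam s.1)
      = Real.log 2 + ∑ i, Real.binEntropy (lam i) := by
  rw [Fintype.sum_prod_type]
  simp only [Fintype.sum_bool]
  have key : ∀ a : Fin n → Bool, Real.negMulLog ((1 / 2 : ℝ) * xw lam a)
      + Real.negMulLog ((1 / 2 : ℝ) * xw lam a)
      = Real.log 2 * xw lam a + Real.negMulLog (xw lam a) := by
    intro a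
    rw [Real.negMulLog_mul]
    have h2 : Real.negMulLog (1 / 2 : ℝ) = 1 / 2 * Real.log 2 := by
      rw [Real.negMulLog, one_div, Real.log_inv]
      ring
    rw [h2]
    ring
  simp_rw [key]
  rw [Finset.sum_add_distrib, ← Finset.mul_sum, xw_sum, mul_one, xw_entropy lam h0 h1]

end Pool.Agent.Lib.MP_0430e4_lc.Ferm
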