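import Mathlib

/-!
# Spectrum of a matrix with ladder operators satisfying the anticommutation relations
-/

set_option autoImplicit false
set_option linter.unusedSectionVars false

namespace Pool.Agent.Lib.MP_0430e4_lc.Ferm

open Finset Matrix

variable {κ : Type*} [Fintype κ] [DecidableEq κ] {m : ℕ}

/-- the hypotheses of the spectral lemma -/
structure Ladder (T U P : Matrix κ κ ℝ) (b : Fin m → Matrix κ κ ℝ) (ρ : Fin m → ℝ) : Prop where
  hcard : Fintype.card κ = 2 ^ (m + 1)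
  hT : Tᵀ = T
  hU : Uᵀ = U
  hP : Pᵀ = P
  hUU : U * U = 1
  hPP : P * P = 1
  hUP : U * P = -(P * U)
  hTU : T * U = U * T
  hTP : T * P = P * T
  hbb : ∀ i j, b i * b j = -(b j * b i)
  hbt : ∀ i j, b i * (b j)ᵀ + (b j)ᵀ * b i = if i = j then 1 else 0
  hbU : ∀ i, b i * U = -(U * b i)
  hbP : ∀ i, b i * P = -(P * b i)
  hρ : ∀ i, 0 < ρ i
  hTb : ∀ i, ρ i • (T * b i) = b i * T
  htr : T.trace = 1

section
variable {T U P : Matrix κ κ ℝ} {b : Fin m → Matrix κ κ ℝ} {ρ : Fin m → ℝ}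

/-- number operators -/
def num (b : Fin m → Matrix κ κ ℝ) (i : Fin m) : Matrix κ κ ℝ := (b i)ᵀ * b i

theorem Ladder.bsq (h : Ladder T U P b ρ) (i : Fin m) : b i * b i = 0 := by
  have h1 := h.hbb i i
  have h2 : (2 : ℝ) • (b i * b i) = 0 := by
    rw [two_smul]
    nth_rewrite 1 [h1]
    simp
  exact (smul_eq_zero.1 h2).resolve_left (by norm_num)

theorem Ladder.bbt (h : Ladder T U P b ρ) (i : Fin m) : b i * (b i)ᵀ = 1 - num b i := by
  have h1 := h.hbt i i
  rw [if_pos rfl] at h1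
  unfold num
  exact eq_sub_of_add_eq h1

theorem Ladder.tt (h : Ladder T U P b ρ) (i j : Fin m) :
    (b i)ᵀ * (b j)ᵀ = -((b j)ᵀ * (b i)ᵀ) := by
  have h1 := congrArg Matrix.transpose (h.hbb j i)
  rw [Matrix.transpose_neg, Matrix.transpose_mul, Matrix.transpose_mul] at h1
  exact h1

theorem Ladder.tU (h : Ladder T U P b ρ) (i : Fin m) : (b i)ᵀ * U = -(U * (b i)ᵀ) := by
  have h1 := congrArg Matrix.transpose (h.hbU i)
  rw [Matrix.transpose_neg, Matrix.transpose_mul, Matrix.transpose_mul, h.hU] at h1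
  rw [h1, neg_neg]

theorem Ladder.tP (h : Ladder T U P b ρ) (i : Fin m) : (b i)ᵀ * P = -(P * (b i)ᵀ) := by
  have h1 := congrArg Matrix.transpose (h.hbP i)
  rw [Matrix.transpose_neg, Matrix.transpose_mul, Matrix.transpose_mul, h.hP] at h1
  rw [h1, neg_neg]

theorem Ladder.Tt (h : Ladder T U P b ρ) (i : Fin m) :
    T * (b i)ᵀ = ρ i • ((b i)ᵀ * T) := by
  have h1 := congrArg Matrix.transpose (h.hTb i)
  rw [Matrix.transpose_smul, Matrix.transpose_mul, Matrix.transpose_mul, h.hT] at h1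
  exact h1.symm

theorem num_symm (i : Fin m) : (num b i)ᵀ = num b i := by
  unfold num
  rw [Matrix.transpose_mul, Matrix.transpose_transpose]

theorem Ladder.numU (h : Ladder T U P b ρ) (i : Fin m) : num b i * U = U * num b i := by
  unfold num
  rw [mul_assoc, h.hbU, mul_neg, ← mul_assoc, h.tU, neg_mul, neg_neg, mul_assoc]

theorem Ladder.numP (h : Ladder T U P b ρ) (i : Fin m) : num b i * P = P * num b i := by
  unfold num
  rw [mul_assoc, h.hbP, mul_neg, ← mul_assoc, h.tP, neg_mul, neg_neg, mul_assoc]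

theorem Ladder.numT (h : Ladder T U P b ρ) (i : Fin m) : num b i * T = T * num b i := by
  unfold num
  rw [mul_assoc, ← h.hTb, Matrix.mul_smul, ← mul_assoc, ← Matrix.smul_mul, ← h.Tt, mul_assoc]

/-- `N i` commutes with `(b j)ᵀ`, `i ≠ j` -/
theorem Ladder.num_t (h : Ladder T U P b ρ) {i j : Fin m} (hij : i ≠ j) :
    num b i * (b j)ᵀ = (b j)ᵀ * num b i := by
  unfold num
  have h1 := h.hbt i j
  rw [if_neg hij] at h1
  have h2 : b i * (b j)ᵀ = -((b j)ᵀ * b i) := eq_neg_of_add_eq_zero_left h1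
  rw [mul_assoc, h2, mul_neg, ← mul_assoc, h.tt, neg_mul, neg_neg, mul_assoc]

theorem Ladder.num_t_self (h : Ladder T U P b ρ) (i : Fin m) :
    num b i * (b i)ᵀ = (b i)ᵀ * (1 - num b i) := by
  rw [← h.bbt]
  unfold num
  rw [mul_assoc]

/-- sign of a Boolean -/
def sg (e : Bool) : ℝ := if e then 1 else -1

theorem sg_not (e : Bool) : sg (!e) = -sg e := by
  cases e <;> simp [sg]

theorem sg_inj {e f : Bool} (h : sg e = sg f) : e = f := by
  cases e <;> cases f <;> simp [sg] at h ⊢ <;> norm_num at h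

/-- joint eigenvectors -/
def Joint (b : Fin m → Matrix κ κ ℝ) (P : Matrix κ κ ℝ) (s : Finset (Fin m)) (e : Bool)
    (w : κ → ℝ) : Prop :=
  (∀ i, num b i *ᵥ w = (if i ∈ s then (1 : ℝ) else 0) • w) ∧ P *ᵥ w = sg e • w

theorem Ladder.vac (h : Ladder T U P b ρ) (s : Finset (Fin m)) :
    ∃ v : κ → ℝ, v ≠ 0 ∧ ∀ i ∈ s, b i *ᵥ v = 0 := by
  classical
  induction s using Finset.induction_on with
  | empty =>
    have hne : Nonempty κ := by
      rw [← Fintype.card_pos_iff, h.hcard]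
      positivity
    obtain ⟨a⟩ := hne
    refine ⟨Pi.single a 1, ?_, by simp⟩
    intro hc
    have := congrFun hc a
    simp at this
  | insert j s hj ih =>
    obtain ⟨v, hv, hs⟩ := ih
    by_cases hjv : b j *ᵥ v = 0
    · refine ⟨v, hv, ?_⟩
      intro i hi
      rcases Finset.mem_insert.1 hi with rfl | hi
      · exact hjv
      · exact hs i hi
    · refine ⟨b j *ᵥ v, hjv, ?_⟩
      intro i hi
      rw [Matrix.mulVec_mulVec]
      rcases Finset.mem_insert.1 hi with rfl | hi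
      · rw [h.bsq, Matrix.zero_mulVec]
      · rw [h.hbb, Matrix.neg_mulVec, ← Matrix.mulVec_mulVec, hs i hi, Matrix.mulVec_zero, neg_zero]

theorem Ladder.Uvec_ne (h : Ladder T U P b ρ) {v : κ → ℝ} (hv : v ≠ 0) : U *ᵥ v ≠ 0 := by
  intro hc
  apply hv
  have : U *ᵥ (U *ᵥ v) = 0 := by rw [hc, Matrix.mulVec_zero]
  rwa [Matrix.mulVec_mulVec, h.hUU, Matrix.one_mulVec] at this

theorem Ladder.jointU (h : Ladder T U P b ρ) {s : Finset (Fin m)} {e : Bool} {w : κ → ℝ}
    (hw : Joint b P s e w) : Joint b P s (!e) (U *ᵥ w) := by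
  constructor
  · intro i
    rw [Matrix.mulVec_mulVec, h.numU, ← Matrix.mulVec_mulVec, hw.1 i, Matrix.mulVec_smul]
  · rw [Matrix.mulVec_mulVec]
    have h1 : P * U = -(U * P) := by rw [h.hUP, neg_neg]
    rw [h1, Matrix.neg_mulVec, ← Matrix.mulVec_mulVec, hw.2, Matrix.mulVec_smul, sg_not, neg_smul]

theorem Ladder.jointT (h : Ladder T U P b ρ) {s : Finset (Fin m)} {e : Bool} {w : κ → ℝ}
    (hw : Joint b P s e w) : Joint b P s e (T *ᵥ w) := by
  constructor
  · intro i
    rw [Matrix.mulVec_mulVec, h.numT, ← Matrix.mulVec_mulVec, hw.1 i, Matrix.mulVec_smul]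
  · rw [Matrix.mulVec_mulVec, ← h.hTP, ← Matrix.mulVec_mulVec, hw.2, Matrix.mulVec_smul]

theorem Ladder.joint_t (h : Ladder T U P b ρ) {s : Finset (Fin m)} {e : Bool} {w : κ → ℝ}
    (hw : Joint b P s e w) {j : Fin m} (hj : j ∉ s) :
    Joint b P (insert j s) (!e) ((b j)ᵀ *ᵥ w) := by
  constructor
  · intro i
    rw [Matrix.mulVec_mulVec]
    by_cases hij : i = j
    · subst hij
      rw [h.num_t_self, ← Matrix.mulVec_mulVec, Matrix.sub_mulVec, hw.1 i, if_neg hj,
        Matrix.one_mulVec, zero_smul, sub_zero, if_pos (Finset.mem_insert_self _ _), one_smul]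
    · rw [h.num_t hij, ← Matrix.mulVec_mulVec, hw.1 i, Matrix.mulVec_smul]
      congr 1
      simp [Finset.mem_insert, hij]
  · rw [Matrix.mulVec_mulVec]
    have h1 : P * (b j)ᵀ = -((b j)ᵀ * P) := by rw [h.tP, neg_neg]
    rw [h1, Matrix.neg_mulVec, ← Matrix.mulVec_mulVec, hw.2, Matrix.mulVec_smul, sg_not, neg_smul]

theorem Ladder.t_ne (h : Ladder T U P b ρ) {s : Finset (Fin m)} {e : Bool} {w : κ → ℝ}
    (hw : Joint b P s e w) {j : Fin m} (hj : j ∉ s) (hne : w ≠ 0) : (b j)ᵀ *ᵥ w ≠ 0 := by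
  intro hc
  apply hne
  have h1 : b j *ᵥ ((b j)ᵀ *ᵥ w) = 0 := by rw [hc, Matrix.mulVec_zero]
  rw [Matrix.mulVec_mulVec, h.bbt, Matrix.sub_mulVec, Matrix.one_mulVec, hw.1 j, if_neg hj,
    zero_smul, sub_zero] at h1
  exact h1

theorem Ladder.exists_joint (h : Ladder T U P b ρ) (s : Finset (Fin m)) :
    ∀ e : Bool, ∃ w : κ → ℝ, w ≠ 0 ∧ Joint b P s e w := by
  classical
  induction s using Finset.induction_on with
  | empty =>
    obtain ⟨v, hv, hb⟩ := h.vac Finset.univ
    have hnum : ∀ i, num b i *ᵥ v = 0 := by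
      intro i
      unfold num
      rw [← Matrix.mulVec_mulVec, hb i (Finset.mem_univ i), Matrix.mulVec_zero]
    have key : ∃ e : Bool, ∃ w : κ → ℝ, w ≠ 0 ∧ Joint b P ∅ e w := by
      by_cases hp : v + P *ᵥ v = 0
      · refine ⟨false, v, hv, ?_, ?_⟩
        · intro i
          rw [hnum i]
          simp
        · simp only [sg, Bool.false_eq_true, if_false, neg_smul, one_smul]
          exact eq_neg_of_add_eq_zero_right hp
      · refine ⟨true, v + P *ᵥ v, hp, ?_, ?_⟩
        · intro i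
          rw [Matrix.mulVec_add, hnum i, Matrix.mulVec_mulVec, h.numP, ← Matrix.mulVec_mulVec,
            hnum i, Matrix.mulVec_zero]
          simp
        · simp only [sg, if_true, one_smul]
          rw [Matrix.mulVec_add, Matrix.mulVec_mulVec, h.hPP, Matrix.one_mulVec, add_comm]
    obtain ⟨e, w, hw, hj⟩ := key
    intro e'
    by_cases he : e' = e
    · subst he
      exact ⟨w, hw, hj⟩
    · refine ⟨U *ᵥ w, h.Uvec_ne hw, ?_⟩
      have := h.jointU hj
      have h2 : e' = !e := by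
        revert he
        cases e <;> cases e' <;> simp
      rw [h2]
      exact this
  | insert j s hj ih =>
    intro e
    obtain ⟨w, hw, hjw⟩ := ih (!e)
    refine ⟨(b j)ᵀ *ᵥ w, h.t_ne hjw hj hw, ?_⟩
    have := h.joint_t hjw hj
    rwa [Bool.not_not] at this

theorem symm_dot {A : Matrix κ κ ℝ} (hA : Aᵀ = A) (v w : κ → ℝ) :
    (A *ᵥ v) ⬝ᵥ w = v ⬝ᵥ (A *ᵥ w) := by
  rw [Matrix.dotProduct_mulVec, ← Matrix.mulVec_transpose, hA]

theorem joint_orth (hP : Pᵀ = P) {s t : Finset (Fin m)} {e f : Bool} {v w : κ → ℝ}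
    (hv : Joint b P s e v) (hw : Joint b P t f w) (hne : (s, e) ≠ (t, f)) : v ⬝ᵥ w = 0 := by
  by_cases hst : s = t
  · have hef : e ≠ f := by
      intro hc
      exact hne (by rw [hst, hc])
    have h1 := symm_dot hP v w
    rw [hv.2, hw.2, smul_dotProduct, dotProduct_smul, smul_eq_mul, smul_eq_mul] at h1
    have h2 : (sg e - sg f) * (v ⬝ᵥ w) = 0 := by linarith
    rcases mul_eq_zero.1 h2 with h3 | h3
    · exact absurd (sg_inj (sub_eq_zero.1 h3)) hef
    · exact h3
  · obtain ⟨i, hi⟩ : ∃ i, ¬ (i ∈ s ↔ i ∈ t) := by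
      by_contra hc
      push Not at hc
      exact hst (Finset.ext hc)
    have h1 := symm_dot (num_symm (b := b) i) v w
    rw [hv.1 i, hw.1 i, smul_dotProduct, dotProduct_smul, smul_eq_mul, smul_eq_mul] at h1
    by_cases h2 : i ∈ s <;> by_cases h3 : i ∈ t
    · exact absurd (iff_of_true h2 h3) hi
    · rw [if_pos h2, if_neg h3] at h1
      linarith
    · rw [if_neg h2, if_pos h3] at h1
      linarith
    · exact absurd (iff_of_false h2 h3) hi

theorem sum_bool_prod (ρ : Fin m → ℝ) :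
    ∑ S : Fin m → Bool, ∏ i, (if S i = true then ρ i else 1) = ∏ i, (1 + ρ i) := by
  have h1 := Finset.prod_univ_sum (fun _ : Fin m => (Finset.univ : Finset Bool))
    (fun i (x : Bool) => if x = true then ρ i else (1 : ℝ))
  rw [Fintype.piFinset_univ] at h1
  rw [← h1]
  apply Finset.prod_congr rfl
  intro i _
  simp [add_comm]

/-- the set of a Boolean vector -/
def st (S : Fin m → Bool) : Finset (Fin m) := Finset.univ.filter fun i => S i = true

theorem st_inj {S S' : Fin m → Bool} (h : st S = st S') : S = S' := by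
  funext i
  have h1 : i ∈ st S ↔ i ∈ st S' := by rw [h]
  simp only [st, Finset.mem_filter, Finset.mem_univ, true_and] at h1
  exact Bool.eq_iff_iff.2 h1

theorem exists_st (s : Finset (Fin m)) : ∃ S : Fin m → Bool, st S = s := by
  classical
  refine ⟨fun i => decide (i ∈ s), ?_⟩
  ext i
  simp [st]

theorem dot_pos {w : κ → ℝ} (hw : w ≠ 0) : 0 < w ⬝ᵥ w := by
  have h1 : 0 ≤ w ⬝ᵥ w := by
    unfold dotProduct
    exact Finset.sum_nonneg fun i _ => mul_self_nonneg _
  rcases h1.lt_or_eq with h2 | h2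
  · exact h2
  · exact absurd (dotProduct_self_eq_zero.1 h2.symm) hw

theorem joint_smul {s : Finset (Fin m)} {e : Bool} {w : κ → ℝ} (hw : Joint b P s e w) (c : ℝ) :
    Joint b P s e (c • w) := by
  constructor
  · intro i
    rw [Matrix.mulVec_smul, hw.1 i, smul_comm]
  · rw [Matrix.mulVec_smul, hw.2, smul_comm]

theorem Ladder.exists_unit (h : Ladder T U P b ρ) (s : Finset (Fin m)) (e : Bool) :
    ∃ w : κ → ℝ, w ⬝ᵥ w = 1 ∧ Joint b P s e w := by
  obtain ⟨w, hw, hj⟩ := h.exists_joint s e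
  have hp := dot_pos hw
  refine ⟨(Real.sqrt (w ⬝ᵥ w))⁻¹ • w, ?_, joint_smul hj _⟩
  rw [smul_dotProduct, dotProduct_smul, smul_eq_mul, smul_eq_mul, ← mul_assoc, ← mul_inv,
    Real.mul_self_sqrt hp.le, inv_mul_cancel₀ hp.ne']

/-- the structure of the spectrum -/
theorem Ladder.main (h : Ladder T U P b ρ) :
    ∃ V : Matrix κ ((Fin m → Bool) × Bool) ℝ, Vᵀ * V = 1 ∧ V * Vᵀ = 1 ∧
      T * V = V * Matrix.diagonal (fun s => (1 / 2 : ℝ) * ∏ i, (if s.1 i = true then ρ i / (1 + ρ i)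
        else 1 / (1 + ρ i))) := by
  classical
  choose W hW1 hWj using fun s e => h.exists_unit s e
  set V : Matrix κ ((Fin m → Bool) × Bool) ℝ := Matrix.of fun a x => W (st x.1) x.2 a with hV
  have hVV : Vᵀ * V = 1 := by
    ext x x'
    have e1 : (Vᵀ * V) x x' = W (st x.1) x.2 ⬝ᵥ W (st x'.1) x'.2 := by
      simp [Matrix.mul_apply, hV, dotProduct]
    rw [e1]
    by_cases hxx : x = x'
    · subst hxx
      rw [hW1, Matrix.one_apply_eq]
    · rw [Matrix.one_apply_ne hxx]
      apply joint_orth h.hP (hWj _ _) (hWj _ _)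
      intro hc
      apply hxx
      rw [Prod.mk.injEq] at hc
      exact Prod.ext (st_inj hc.1) hc.2
  have hcard : Fintype.card ((Fin m → Bool) × Bool) = Fintype.card κ := by
    rw [h.hcard, Fintype.card_prod, Fintype.card_fun, Fintype.card_bool, Fintype.card_fin,
      pow_succ]
  have hVVt : V * Vᵀ = 1 := (Matrix.mul_eq_one_comm_of_card_eq _ _ _ hcard).1 hVV
  -- one-dimensionality
  have hone : ∀ s e (w : κ → ℝ), Joint b P s e w → w = (W s e ⬝ᵥ w) • W s e := by
    intro s e w hw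
    obtain ⟨S, rfl⟩ := exists_st s
    have e1 : w = V *ᵥ (Vᵀ *ᵥ w) := by rw [Matrix.mulVec_mulVec, hVVt, Matrix.one_mulVec]
    have e2 : Vᵀ *ᵥ w = (W (st S) e ⬝ᵥ w) • Pi.single (S, e) 1 := by
      funext x
      have e3 : (Vᵀ *ᵥ w) x = W (st x.1) x.2 ⬝ᵥ w := by
        simp [Matrix.mulVec, dotProduct, hV]
      rw [e3]
      by_cases hx : x = (S, e)
      · subst hx
        simp
      · rw [joint_orth h.hP (hWj _ _) hw]
        · simp [Pi.single_eq_of_ne hx]
        · intro hc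
          apply hx
          rw [Prod.mk.injEq] at hc
          exact Prod.ext (st_inj hc.1) hc.2
    rw [e2, Matrix.mulVec_smul, Matrix.mulVec_single_one] at e1
    refine e1.trans ?_
    congr 1
  set y : Finset (Fin m) → Bool → ℝ := fun s e => W s e ⬝ᵥ (T *ᵥ W s e) with hy
  have heig : ∀ s e, T *ᵥ W s e = y s e • W s e := fun s e => hone s e _ (h.jointT (hWj s e))
  have hWne : ∀ s e, W s e ≠ 0 := by
    intro s e hc
    have := hW1 s e
    rw [hc] at this
    simp at this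
  -- eigenvalues of joint vectors
  have heig2 : ∀ s e (w : κ → ℝ), Joint b P s e w → T *ᵥ w = y s e • w := by
    intro s e w hw
    have h1 := hone s e w hw
    calc T *ᵥ w = T *ᵥ ((W s e ⬝ᵥ w) • W s e) := by rw [← h1]
      _ = (W s e ⬝ᵥ w) • (y s e • W s e) := by rw [Matrix.mulVec_smul, heig]
      _ = y s e • ((W s e ⬝ᵥ w) • W s e) := smul_comm _ _ _
      _ = y s e • w := by rw [← h1]
  have huniq : ∀ {a c : ℝ} {w : κ → ℝ}, w ≠ 0 → a • w = c • w → a = c := by
    intro a c w hw hac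
    have : (a - c) • w = 0 := by rw [sub_smul, hac, sub_self]
    rcases smul_eq_zero.1 this with h1 | h1
    · linarith
    · exact absurd h1 hw
  have hyU : ∀ s e, y s (!e) = y s e := by
    intro s e
    have h1 := heig2 s (!e) _ (h.jointU (hWj s e))
    rw [Matrix.mulVec_mulVec, h.hTU, ← Matrix.mulVec_mulVec, heig, Matrix.mulVec_smul] at h1
    exact (huniq (h.Uvec_ne (hWne s e)) h1).symm
  have hyt : ∀ s e j, j ∉ s → y (insert j s) (!e) = ρ j * y s e := by
    intro s e j hj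
    have h1 := heig2 (insert j s) (!e) _ (h.joint_t (hWj s e) hj)
    rw [Matrix.mulVec_mulVec, h.Tt, Matrix.smul_mulVec, ← Matrix.mulVec_mulVec, heig,
      Matrix.mulVec_smul, smul_smul] at h1
    exact (huniq (h.t_ne (hWj s e) hj (hWne s e)) h1).symm
  have hy0 : ∀ s e, y s e = y s true := by
    intro s e
    cases e
    · exact hyU s true
    · rfl
  have hprod : ∀ s : Finset (Fin m), y s true = y ∅ true * ∏ i ∈ s, ρ i := by
    intro s
    induction s using Finset.induction_on with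
    | empty => simp
    | insert j s hj ih =>
      rw [Finset.prod_insert hj]
      have h1 := hyt s false j hj
      rw [Bool.not_false, hy0 s false, ih] at h1
      rw [h1]
      ring
  set D : (Fin m → Bool) × Bool → ℝ := fun x => y (st x.1) x.2 with hD
  have hTV : T * V = V * Matrix.diagonal D := by
    ext a x
    have e1 : (T * V) a x = (T *ᵥ W (st x.1) x.2) a := by
      simp [Matrix.mul_apply, Matrix.mulVec, dotProduct, hV]
    rw [e1, heig, Matrix.mul_diagonal]
    simp [hV, hD, mul_comm]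
  have htr : ∑ x : (Fin m → Bool) × Bool, D x = 1 := by
    have e1 : T = V * Matrix.diagonal D * Vᵀ := by
      rw [← hTV, Matrix.mul_assoc, hVVt, Matrix.mul_one]
    have e2 := h.htr
    rw [e1, Matrix.trace_mul_comm, ← Matrix.mul_assoc, hVV, Matrix.one_mul, Matrix.trace_diagonal]
      at e2
    exact e2
  have hysum : 2 * (y ∅ true * ∏ i, (1 + ρ i)) = 1 := by
    rw [Fintype.sum_prod_type] at htr
    have e1 : ∀ S : Fin m → Bool, ∑ e : Bool, D (S, e)
        = 2 * (y ∅ true * ∏ i, (if S i = true then ρ i else 1)) := by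
      intro S
      have e2 : ∏ i ∈ st S, ρ i = ∏ i, (if S i = true then ρ i else 1) := by
        rw [Finset.prod_ite, Finset.prod_const_one, mul_one]
        rfl
      rw [Fintype.sum_bool]
      simp only [hD]
      rw [hy0 (st S) false, hprod, ← two_mul, e2]
    simp only [e1, ← Finset.mul_sum, sum_bool_prod] at htr
    exact htr
  refine ⟨V, hVV, hVVt, ?_⟩
  rw [hTV]
  congr 2
  funext x
  simp only [hD]
  rw [hy0, hprod]
  have hpos : ∀ i, (0 : ℝ) < 1 + ρ i := fun i => by linarith [h.hρ i]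
  have hP0 : (0 : ℝ) < ∏ i, (1 + ρ i) := Finset.prod_pos fun i _ => hpos i
  have e1 : y ∅ true = (1 / 2) / ∏ i, (1 + ρ i) := by
    rw [eq_div_iff hP0.ne']
    linarith
  have e2 : ∏ i, (if x.1 i = true then ρ i / (1 + ρ i) else 1 / (1 + ρ i))
      = (∏ i, (if x.1 i = true then ρ i else 1)) / ∏ i, (1 + ρ i) := by
    rw [← Finset.prod_div_distrib]
    apply Finset.prod_congr rfl
    intro i _
    split_ifs <;> rfl
  have e3 : ∏ i ∈ st x.1, ρ i = ∏ i, (if x.1 i = true then ρ i else 1) := by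
    rw [Finset.prod_ite, Finset.prod_const_one, mul_one]
    rfl
  rw [e1, e2, e3]
  ring

end

/-- Module SPEC.  `T, U, P` symmetric, `U, P` anticommuting involutions commuting with `T`, fermions
`b_i` with `ρ_i T b_i = b_i T`, `card k = 2^(m+1)`, `tr T = 1`: then `T` is diagonalised by an
orthogonal `V` with eigenvalues `½ ∏ (ρ_i/(1+ρ_i) or 1/(1+ρ_i))`, each twice. -/
theorem spec {k : Type} [Fintype k] [DecidableEq k] {m : ℕ} (hk : Fintype.card k = 2 ^ (m + 1))
    {T U P : Matrix k k ℝ} {b : Fin m → Matrix k k ℝ} {ρ : Fin m → ℝ}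
    (hT : Tᵀ = T) (hU : Uᵀ = U) (hP : Pᵀ = P) (hUU : U * U = 1) (hPP : P * P = 1)
    (hUP : U * P = -(P * U)) (hTU : T * U = U * T) (hTP : T * P = P * T)
    (hbb : ∀ i j, b i * b j = -(b j * b i))
    (hbt : ∀ i j, b i * (b j)ᵀ + (b j)ᵀ * b i = if i = j then 1 else 0)
    (hbU : ∀ i, b i * U = -(U * b i)) (hbP : ∀ i, b i * P = -(P * b i))
    (hρ : ∀ i, 0 < ρ i) (hlad : ∀ i, ρ i • (T * b i) = b i * T) (htr : T.trace = 1) :
    ∃ V : Matrix k ((Fin m → Bool) × Bool) ℝ, Vᵀ * V = 1 ∧ V * Vᵀ = 1 ∧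
      T * V = V * Matrix.diagonal (fun s => (1 / 2 : ℝ) * ∏ i, (if s.1 i = true then ρ i / (1 + ρ i)
        else 1 / (1 + ρ i))) :=
  Ladder.main ⟨hk, hT, hU, hP, hUU, hPP, hUP, hTU, hTP, hbb, hbt, hbU, hbP, hρ, hlad, htr⟩

end Pool.Agent.Lib.MP_0430e4_lc.Ferm
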