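import Pool.Agent.Lib.MP_0430e4_lc.Ferm.Defs

/-!
# Module WGT of Theorem F: the weights of an interlacing pair
-/

set_option autoImplicit false

namespace Pool.Agent.Lib.MP_0430e4_lc.Ferm

open Finset Matrix Polynomial

private theorem interl_strictMono {n : ℕ} {z : Fin (n + 1) → ℝ} {a : Fin n → ℝ} (h : Interl z a) :
    StrictMono z := by
  rw [Fin.strictMono_iff_lt_succ]
  intro j
  exact (h j).1.trans (h j).2

/-- product over the indices different from `i` through `Fin.succAbove` -/
private theorem prod_erase_succAbove {n : ℕ} (f : Fin (n + 1) → ℝ) (i : Fin (n + 1)) :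
    ∏ j ∈ univ.erase i, f j = ∏ j : Fin n, f (i.succAbove j) := by
  have h : (univ.erase i : Finset (Fin (n + 1))) = univ.map (Fin.succAboveEmb i) := by
    rw [Fin.univ_succAbove n i, Finset.erase_cons]
  rw [h, Finset.prod_map]
  rfl

theorem wgt_pos {n : ℕ} (z : Fin (n + 1) → ℝ) (a : Fin n → ℝ) (h : Interl z a) (i : Fin (n + 1)) :
    0 < wgt z a i := by
  have hz : StrictMono z := interl_strictMono h
  unfold wgt
  rw [prod_erase_succAbove (fun j => z j - z i) i, ← Finset.prod_div_distrib]
  refine Finset.prod_pos fun j _ => ?_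
  rcases lt_or_ge j.castSucc i with hji | hji
  · rw [Fin.succAbove_of_castSucc_lt i j hji]
    have h1 : z j.castSucc < z i := hz hji
    have h2 : z j.succ ≤ z i := hz.monotone (Fin.castSucc_lt_iff_succ_le.mp hji)
    have h3 := (h j).2
    exact div_pos_of_neg_of_neg (by linarith) (by linarith)
  · rw [Fin.succAbove_of_le_castSucc i j hji]
    have h1 : z i ≤ z j.castSucc := hz.monotone hji
    have h2 := (h j).1
    have h3 := (h j).2
    exact div_pos (by linarith) (by linarith)

/-- the denominators with reversed signs -/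
private theorem den_eq {n : ℕ} (z : Fin (n + 1) → ℝ) (i : Fin (n + 1)) :
    ∏ j ∈ univ.erase i, (z j - z i) = (-1) ^ n * ∏ j ∈ univ.erase i, (z i - z j) := by
  rw [prod_erase_succAbove (fun j => z j - z i), prod_erase_succAbove (fun j => z i - z j)]
  have : ∀ j : Fin n, z (i.succAbove j) - z i = -1 * (z i - z (i.succAbove j)) := by
    intro j; ring
  simp_rw [this]
  rw [Finset.prod_mul_distrib, Finset.prod_const]
  simp

private theorem num_eq {n : ℕ} (s : Finset (Fin n)) (a : Fin n → ℝ) (x : ℝ) :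
    ∏ j ∈ s, (a j - x) = (-1) ^ s.card * (∏ j ∈ s, (X - C (a j)) : ℝ[X]).eval x := by
  rw [Polynomial.eval_prod]
  have : ∀ j ∈ s, a j - x = -1 * ((X - C (a j) : ℝ[X]).eval x) := by
    intro j _; simp
  rw [Finset.prod_congr rfl this, Finset.prod_mul_distrib, Finset.prod_const]

theorem wgt_sum {n : ℕ} (z : Fin (n + 1) → ℝ) (a : Fin n → ℝ) (h : Interl z a) :
    ∑ i, wgt z a i = 1 := by
  have hz : StrictMono z := interl_strictMono h
  have hinj : Set.InjOn z (univ : Finset (Fin (n + 1))) := hz.injective.injOn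
  have hmon : (∏ j : Fin n, (X - C (a j)) : ℝ[X]).Monic := monic_prod_of_monic _ _ fun j _ => monic_X_sub_C _
  have hnat : (∏ j : Fin n, (X - C (a j)) : ℝ[X]).natDegree = n := by
    rw [natDegree_prod_of_monic _ _ fun j _ => monic_X_sub_C _]
    simp
  have hdeg : (∏ j : Fin n, (X - C (a j)) : ℝ[X]).degree < (univ : Finset (Fin (n + 1))).card := by
    rw [degree_eq_natDegree hmon.ne_zero, hnat, Finset.card_univ, Fintype.card_fin]
    exact_mod_cast Nat.lt_succ_self n
  have hL := Lagrange.coeff_eq_sum (F := ℝ) hinj hdeg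
  have hc : (∏ j : Fin n, (X - C (a j)) : ℝ[X]).coeff ((univ : Finset (Fin (n + 1))).card - 1) = 1 := by
    rw [Finset.card_univ, Fintype.card_fin, Nat.add_sub_cancel]
    have := hmon.coeff_natDegree
    rwa [hnat] at this
  rw [hc] at hL
  rw [hL]
  refine Finset.sum_congr rfl fun i _ => ?_
  unfold wgt
  rw [den_eq, num_eq univ a, Finset.card_univ, Fintype.card_fin]
  exact mul_div_mul_left _ _ (pow_ne_zero _ (by norm_num))

theorem wgt_sec {n : ℕ} (z : Fin (n + 1) → ℝ) (a : Fin n → ℝ) (h : Interl z a) (j : Fin n) :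
    ∑ i, wgt z a i / (z i - a j) = 0 := by
  have hz : StrictMono z := interl_strictMono h
  have hinj : Set.InjOn z (univ : Finset (Fin (n + 1))) := hz.injective.injOn
  have hn : 0 < n := Fin.pos j
  have hne : ∀ i, z i ≠ a j := by
    intro i
    rcases lt_or_ge j.castSucc i with hji | hji
    · have h2 : z j.succ ≤ z i := hz.monotone (Fin.castSucc_lt_iff_succ_le.mp hji)
      have h3 := (h j).2
      exact (by linarith : a j < z i).ne'
    · have h1 : z i ≤ z j.castSucc := hz.monotone hji
      have h2 := (h j).1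
      exact (by linarith : z i < a j).ne
  have hmon : (∏ l ∈ univ.erase j, (X - C (a l)) : ℝ[X]).Monic :=
    monic_prod_of_monic _ _ fun j _ => monic_X_sub_C _
  have hnat : (∏ l ∈ univ.erase j, (X - C (a l)) : ℝ[X]).natDegree = n - 1 := by
    rw [natDegree_prod_of_monic _ _ fun j _ => monic_X_sub_C _]
    simp [Finset.card_erase_of_mem]
  have hdeg : (∏ l ∈ univ.erase j, (X - C (a l)) : ℝ[X]).degree < (univ : Finset (Fin (n + 1))).card := by
    rw [degree_eq_natDegree hmon.ne_zero, hnat, Finset.card_univ, Fintype.card_fin]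
    exact_mod_cast (by omega : n - 1 < n + 1)
  have hL := Lagrange.coeff_eq_sum (F := ℝ) hinj hdeg
  have hc : (∏ l ∈ univ.erase j, (X - C (a l)) : ℝ[X]).coeff
      ((univ : Finset (Fin (n + 1))).card - 1) = 0 := by
    rw [Finset.card_univ, Fintype.card_fin, Nat.add_sub_cancel]
    exact coeff_eq_zero_of_natDegree_lt (by rw [hnat]; omega)
  rw [hc] at hL
  have hgoal : ∑ i, wgt z a i / (z i - a j)
      = ∑ i, ((∏ l ∈ univ.erase j, (X - C (a l)) : ℝ[X]).eval (z i))
          / ∏ l ∈ univ.erase i, (z i - z l) := by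
    refine Finset.sum_congr rfl fun i _ => ?_
    unfold wgt
    rw [den_eq, ← Finset.mul_prod_erase univ _ (Finset.mem_univ j), num_eq (univ.erase j) a,
      Finset.card_erase_of_mem (Finset.mem_univ j), Finset.card_univ, Fintype.card_fin]
    have hd : ∏ l ∈ univ.erase i, (z i - z l) ≠ 0 := by
      refine Finset.prod_ne_zero_iff.mpr fun l hl => ?_
      exact sub_ne_zero.mpr (hz.injective.ne (Finset.ne_of_mem_erase hl).symm)
    have hs : z i - a j ≠ 0 := sub_ne_zero.mpr (hne i)
    have hpow : ((-1 : ℝ)) ^ n = (-1) ^ (n - 1) * (-1) := by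
      rw [← pow_succ]; congr 1; omega
    have hp1 : ((-1 : ℝ)) ^ (n - 1) ≠ 0 := pow_ne_zero _ (by norm_num)
    rw [hpow]
    field_simp
    ring
  rw [hgoal, ← hL]

end Pool.Agent.Lib.MP_0430e4_lc.Ferm
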