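import Pool.Agent.Lib.MP_0430e4_lc.Ferm.LAD
import Pool.Agent.Lib.MP_0430e4_lc.Ferm.SPEC
import Pool.Agent.Lib.MP_0430e4_lc.Ferm.ENT
import Pool.Agent.Lib.MP_0430e4_lc.Ferm.AFF
import Pool.Agent.Lib.MP_0430e4_lc.Ferm.WGT

/-!
# Module FIN: Theorem F in the form needed for Theorem Q
-/

set_option autoImplicit false

namespace Pool.Agent.Lib.MP_0430e4_lc.Ferm

open Finset Matrix

/-- Module LAD: with `t_j = 1 - 2 p_j` and `t'_i = 1 - 2 lam_i`, `∑ w = 1`, secular equations. -/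
theorem xbd_spec {n : ℕ} (p w : Fin (n + 1) → ℝ) (lam : Fin n → ℝ)
    (hp0 : ∀ i, 0 < p i) (hp1 : ∀ i, p i ≤ 1 / 2) (hl0 : ∀ i, 0 < lam i) (hl1 : ∀ i, lam i < 1 / 2)
    (hw : ∀ i, 0 < w i) (hw1 : ∑ i, w i = 1) (hinj : Function.Injective lam)
    (hne : ∀ i j, lam i ≠ p j)
    (hsec : ∀ j, ∑ i, w i / ((1 - 2 * p i) ^ 2 - (1 - 2 * lam j) ^ 2) = 0) :
    ∃ V : Matrix (Fin (n + 1) → Bool) ((Fin n → Bool) × Bool) ℝ, Vᵀ * V = 1 ∧ V * Vᵀ = 1 ∧
      Xbd p w * V = V * (Matrix.diagonal (fun s => (1 / 2 : ℝ) * xw lam s.1) :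
        Matrix ((Fin n → Bool) × Bool) ((Fin n → Bool) × Bool) ℝ) := by
  have hw' : ∀ i, 0 ≤ w i := fun i => (hw i).le
  have hd : ∀ i j, (1 - 2 * p j) ^ 2 - (1 - 2 * lam i) ^ 2 ≠ 0 := by
    intro i j h
    have h1 : (2 * (lam i - p j)) * ((1 - 2 * p j) + (1 - 2 * lam i)) = 0 := by
      linear_combination h
    rcases mul_eq_zero.mp h1 with h2 | h2
    · exact hne i j (by linarith)
    · have := hl1 i
      have := hp1 j
      linarith
  have hp1' : ∀ j, p j < 1 := fun j => by linarith [hp1 j]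
  have hlam : ∀ i, 0 < 1 - lam i := fun i => by linarith [hl1 i]
  obtain ⟨V, h1, h2, h3⟩ := spec (k := Fin (n + 1) → Bool) (m := n) (by simp)
    (T := Xbd p w) (U := gam w) (P := Pm (n + 1)) (b := bop p w lam)
    (ρ := fun i => lam i / (1 - lam i))
    (Xbd_transpose p w) (gam_transpose w) (Pm_transpose _) (gam_mul_self w hw' hw1) (Pm_Pm _)
    (gam_Pm w) (Xbd_gam p w hw' hw1) (Xbd_Pm p w)
    (bop_bop p w lam hw hinj hl1 hd hsec) (bop_bopT p w lam hw hinj hl1 hd hsec)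
    (bop_gam p w lam hw hsec) (bop_Pm p w lam)
    (fun i => div_pos (hl0 i) (hlam i))
    (by
      intro i
      unfold bop Xbd
      have hb := lin_anticomm (bu p w lam i) (bv p w lam i) (fun j => Real.sqrt (w j)) (fun _ => 0)
      rw [← gam_eq, bu_gam p w lam hw hsec i] at hb
      simp only [mul_zero, Finset.sum_const_zero, sub_zero, zero_smul] at hb
      have hb' := eq_neg_of_add_eq_zero_left hb
      have := ladder_avg (gam_mul_self w hw' hw1) hb'
        (Xm_b p w lam hp0 hp1' i (by linarith [hl1 i]) (hd i))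
      rw [mul_smul_comm, smul_comm, this, smul_mul_assoc])
    (Xbd_trace p w hw' hw1)
  refine ⟨V, h1, h2, ?_⟩
  refine Eq.trans h3 ?_
  show V * (Matrix.diagonal (fun s : (Fin n → Bool) × Bool => (1 / 2 : ℝ) * ∏ i,
      (if s.1 i = true then lam i / (1 - lam i) / (1 + lam i / (1 - lam i))
        else 1 / (1 + lam i / (1 - lam i)))) :
      Matrix ((Fin n → Bool) × Bool) ((Fin n → Bool) × Bool) ℝ) = _
  congr 2
  funext s
  congr 1
  unfold xw
  apply Finset.prod_congr rfl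
  intro i _
  have h4 := (hlam i).ne'
  have e1 : 1 + lam i / (1 - lam i) = 1 / (1 - lam i) := by
    field_simp
    ring
  rw [e1]
  split_ifs
  · field_simp
  · rw [one_div_one_div]

/-- Theorem F: the data for Theorem Q.  `p_0 > lam_0 > p_1 > ... > lam_{n-1} > p_n`. -/
theorem ferm_data {n : ℕ} (p : Fin (n + 1) → ℝ) (lam : Fin n → ℝ)
    (hp0 : ∀ i, 0 < p i) (hp1 : ∀ i, p i ≤ 1 / 2)
    (hint : ∀ j : Fin n, lam j < p j.castSucc ∧ p j.succ < lam j) :
    let w := wgt (fun i => (1 - 2 * p i) ^ 2) (fun j => (1 - 2 * lam j) ^ 2)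
    ∃ (x : (Fin (n + 1) → Bool) → ℝ) (U : Matrix (Fin (n + 1) → Bool) (Fin (n + 1) → Bool) ℝ)
      (y : (Fin n → Bool) × Bool → ℝ) (V : Matrix (Fin (n + 1) → Bool) ((Fin n → Bool) × Bool) ℝ),
      (∀ a, 0 ≤ x a) ∧ ∑ a, x a = 1 ∧ Uᵀ = U ∧ U * U = 1 ∧ Vᵀ * V = 1 ∧ V * Vᵀ = 1 ∧
      ((1 / 2 : ℝ) • (Matrix.diagonal x + U * Matrix.diagonal x * U)) * V
        = V * (Matrix.diagonal y : Matrix ((Fin n → Bool) × Bool) ((Fin n → Bool) × Bool) ℝ) ∧
      ∑ a, ∑ b, Real.sqrt (x a * x b) * (U a b) ^ 2 = ∑ j, w j * (2 * Real.sqrt (p j * (1 - p j))) ∧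
      ∑ a, Real.negMulLog (x a) = ∑ i, Real.binEntropy (p i) ∧
      ∑ s, Real.negMulLog (y s) = Real.log 2 + ∑ i, Real.binEntropy (lam i) := by
  intro w
  have hp0' : ∀ i, 0 ≤ p i := fun i => (hp0 i).le
  have hp1' : ∀ i, p i ≤ 1 := fun i => by linarith [hp1 i]
  have hl0 : ∀ i, 0 < lam i := fun i => lt_trans (hp0 _) (hint i).2
  have hl1 : ∀ i, lam i < 1 / 2 := fun i => lt_of_lt_of_le (hint i).1 (hp1 _)
  -- monotonicity
  have hpanti : StrictAnti p := by
    rw [Fin.strictAnti_iff_succ_lt]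
    intro i
    exact lt_trans (hint i).2 (hint i).1
  have hinterl : Interl (fun i => (1 - 2 * p i) ^ 2) (fun j => (1 - 2 * lam j) ^ 2) := by
    intro j
    have h1 := (hint j).1
    have h2 := (hint j).2
    have h3 := hp1 j.castSucc
    have h4 := hl1 j
    constructor
    · show (1 - 2 * p j.castSucc) ^ 2 < (1 - 2 * lam j) ^ 2
      nlinarith
    · show (1 - 2 * lam j) ^ 2 < (1 - 2 * p j.succ) ^ 2
      nlinarith
  have hne : ∀ i j, lam i ≠ p j := by
    intro i j h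
    rcases le_or_gt j i.castSucc with hj | hj
    · have := hpanti.antitone hj
      have := (hint i).1
      linarith
    · have hj' : i.succ ≤ j := by
        rw [Fin.le_iff_val_le_val, Fin.val_succ]
        rw [Fin.lt_def, Fin.val_castSucc] at hj
        omega
      have := hpanti.antitone hj'
      have := (hint i).2
      linarith
  have hlanti : StrictAnti lam := by
    intro i j hij
    have hj' : i.succ ≤ j.castSucc := by
      rw [Fin.le_iff_val_le_val, Fin.val_succ, Fin.val_castSucc]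
      rw [Fin.lt_def] at hij
      omega
    have := hpanti.antitone hj'
    have := (hint i).2
    have := (hint j).1
    linarith
  have hw : ∀ i, 0 < w i := wgt_pos _ _ hinterl
  obtain ⟨V, h1, h2, h3⟩ := xbd_spec p w lam hp0 hp1 hl0 hl1 hw (wgt_sum _ _ hinterl)
    hlanti.injective hne (wgt_sec _ _ hinterl)
  refine ⟨xw p, gam w, fun s => (1 / 2 : ℝ) * xw lam s.1, V, xw_nonneg p hp0' hp1', sum_xw p,
    gam_transpose w, gam_mul_self w (fun i => (hw i).le) (wgt_sum _ _ hinterl), h1, h2, h3,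
    affinity p w hp0' hp1' (fun i => (hw i).le), xw_entropy p hp0' hp1',
    half_entropy lam (fun i => (hl0 i).le) (fun i => by linarith [hl1 i])⟩

end Pool.Agent.Lib.MP_0430e4_lc.Ferm
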