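import Pool.Agent.Lib.MP_0430e4_lc.Ferm.Defs

/-!
# Module JW: the real Jordan-Wigner matrices
-/

set_option autoImplicit false

namespace Pool.Agent.Lib.MP_0430e4_lc.Ferm

open Finset Matrix

variable {n : ℕ}

/-- matrix of a signed flip -/
def fm (j : Fin n) (c : (Fin n → Bool) → ℝ) : Matrix (Fin n → Bool) (Fin n → Bool) ℝ :=
  Matrix.of fun b a => if b = fl a j then c a else 0

/-- the sign of `phi` -/
def sgf (j : Fin n) (a : Fin n → Bool) : ℝ := if a j = true then sgn j a else - sgn j a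

theorem psi_eq (j : Fin n) : psi j = fm j (sgn j) := rfl
theorem phi_eq (j : Fin n) : phi j = fm j (sgf j) := rfl

theorem fm_apply (j : Fin n) (c : (Fin n → Bool) → ℝ) (b a : Fin n → Bool) :
    fm j c b a = if b = fl a j then c a else 0 := rfl

theorem fl_fl (a : Fin n → Bool) (j : Fin n) : fl (fl a j) j = a := by
  unfold fl
  simp

theorem fl_comm (a : Fin n → Bool) (i j : Fin n) : fl (fl a i) j = fl (fl a j) i := by
  by_cases h : i = j
  · subst h; rfl
  · unfold fl
    rw [Function.update_of_ne (Ne.symm h), Function.update_of_ne h, Function.update_comm h]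

theorem fl_self (a : Fin n → Bool) (j : Fin n) : fl a j j = !(a j) := by
  simp [fl]

theorem fl_ne (a : Fin n → Bool) {i j : Fin n} (h : i ≠ j) : fl a j i = a i := by
  simp [fl, h]

theorem sgn_fl (i j : Fin n) (a : Fin n → Bool) :
    sgn i (fl a j) = if j < i then - sgn i a else sgn i a := by
  unfold sgn
  split_ifs with h
  · rw [← Finset.mul_prod_erase (univ.filter fun k => k < i) _ (by simpa using h),
      ← Finset.mul_prod_erase (univ.filter fun k => k < i)
        (fun k => if a k = true then (-1 : ℝ) else 1) (by simpa using h)]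
    rw [← neg_mul]
    congr 1
    · rw [fl_self]
      cases a j <;> simp
    · apply Finset.prod_congr rfl
      intro k hk
      rw [fl_ne a (Finset.ne_of_mem_erase hk)]
  · apply Finset.prod_congr rfl
    intro k hk
    have hk' : k < i := by simpa using hk
    rw [fl_ne a (by rintro rfl; exact h hk')]

theorem sgn_mul_self (i : Fin n) (a : Fin n → Bool) : sgn i a * sgn i a = 1 := by
  unfold sgn
  rw [← Finset.prod_mul_distrib]
  apply Finset.prod_eq_one
  intro k _
  split_ifs <;> norm_num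

theorem sgn_fl_self (i : Fin n) (a : Fin n → Bool) : sgn i (fl a i) = sgn i a := by
  rw [sgn_fl, if_neg (lt_irrefl i)]

theorem sgf_fl_self (i : Fin n) (a : Fin n → Bool) : sgf i (fl a i) = - sgf i a := by
  unfold sgf
  rw [sgn_fl_self, fl_self]
  cases a i <;> simp

theorem sgf_fl_ne {i j : Fin n} (h : i ≠ j) (a : Fin n → Bool) :
    sgf i (fl a j) = if j < i then - sgf i a else sgf i a := by
  unfold sgf
  rw [sgn_fl, fl_ne a h]
  split_ifs <;> simp

theorem par_fl (a : Fin n → Bool) (j : Fin n) : par (fl a j) = - par a := by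
  unfold par
  rw [← Finset.mul_prod_erase univ _ (Finset.mem_univ j),
      ← Finset.mul_prod_erase univ
        (fun k => if a k = true then (-1 : ℝ) else 1) (Finset.mem_univ j)]
  rw [← neg_mul]
  congr 1
  · rw [fl_self]
    cases a j <;> simp
  · apply Finset.prod_congr rfl
    intro k hk
    rw [fl_ne a (Finset.ne_of_mem_erase hk)]

theorem par_mul_self (a : Fin n → Bool) : par a * par a = 1 := by
  unfold par
  rw [← Finset.prod_mul_distrib]
  apply Finset.prod_eq_one
  intro k _
  split_ifs <;> norm_num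

theorem fm_mul (i j : Fin n) (c d : (Fin n → Bool) → ℝ) :
    fm i c * fm j d = Matrix.of fun b a => if b = fl (fl a j) i then c (fl a j) * d a else 0 := by
  ext b a
  rw [Matrix.mul_apply, Matrix.of_apply]
  rw [Finset.sum_eq_single (fl a j)]
  · rw [fm_apply, fm_apply, if_pos rfl]
    split_ifs <;> simp
  · intro e _ he
    rw [fm_apply, fm_apply, if_neg he, mul_zero]
  · intro h
    exact absurd (Finset.mem_univ _) h

theorem fm_transpose (j : Fin n) (c : (Fin n → Bool) → ℝ) :
    (fm j c)ᵀ = fm j (fun a => c (fl a j)) := by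
  ext b a
  rw [Matrix.transpose_apply, fm_apply, fm_apply]
  by_cases h : b = fl a j
  · rw [if_pos h, if_pos (by rw [h, fl_fl])]
    rw [h]
  · rw [if_neg h, if_neg (fun h' => h (by rw [h', fl_fl]))]

theorem psi_transpose (j : Fin n) : (psi j)ᵀ = psi j := by
  rw [psi_eq, fm_transpose]
  simp only [sgn_fl_self]

theorem phi_transpose (j : Fin n) : (phi j)ᵀ = -phi j := by
  rw [phi_eq, fm_transpose]
  ext b a
  rw [Matrix.neg_apply, fm_apply, fm_apply, sgf_fl_self]
  split_ifs <;> simp

theorem psi_psi (i j : Fin n) :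
    psi i * psi j + psi j * psi i = if i = j then (2 : ℝ) • (1 : Matrix _ _ ℝ) else 0 := by
  rw [psi_eq, psi_eq, fm_mul, fm_mul]
  by_cases h : i = j
  · subst h
    rw [if_pos rfl]
    ext b a
    rw [Matrix.add_apply, Matrix.of_apply, Matrix.smul_apply, Matrix.one_apply, fl_fl,
      sgn_fl_self, sgn_mul_self]
    split_ifs <;> norm_num
  · rw [if_neg h]
    ext b a
    rw [Matrix.add_apply, Matrix.of_apply, Matrix.of_apply, fl_comm a i j, sgn_fl, sgn_fl,
      Matrix.zero_apply]
    rcases lt_or_gt_of_ne h with h1 | h1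
    · rw [if_neg (asymm h1), if_pos h1]
      split_ifs <;> ring
    · rw [if_pos h1, if_neg (asymm h1)]
      split_ifs <;> ring

theorem phi_phi (i j : Fin n) :
    phi i * phi j + phi j * phi i = if i = j then (-2 : ℝ) • (1 : Matrix _ _ ℝ) else 0 := by
  rw [phi_eq, phi_eq, fm_mul, fm_mul]
  by_cases h : i = j
  · subst h
    rw [if_pos rfl]
    ext b a
    rw [Matrix.add_apply, Matrix.of_apply, Matrix.smul_apply, Matrix.one_apply, fl_fl,
      sgf_fl_self]
    have : sgf i a * sgf i a = 1 := by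
      unfold sgf
      split_ifs
      · exact sgn_mul_self i a
      · rw [neg_mul_neg]; exact sgn_mul_self i a
    rw [neg_mul, this]
    split_ifs <;> norm_num
  · rw [if_neg h]
    ext b a
    rw [Matrix.add_apply, Matrix.of_apply, Matrix.of_apply, fl_comm a i j, sgf_fl_ne h,
      sgf_fl_ne (Ne.symm h), Matrix.zero_apply]
    rcases lt_or_gt_of_ne h with h1 | h1
    · rw [if_neg (asymm h1), if_pos h1]
      split_ifs <;> ring
    · rw [if_pos h1, if_neg (asymm h1)]
      split_ifs <;> ring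

theorem psi_phi (i j : Fin n) : psi i * phi j + phi j * psi i = 0 := by
  rw [psi_eq, phi_eq, fm_mul, fm_mul]
  by_cases h : i = j
  · subst h
    ext b a
    rw [Matrix.add_apply, Matrix.of_apply, Matrix.of_apply, fl_fl,
      sgf_fl_self, sgn_fl_self, Matrix.zero_apply]
    split_ifs <;> ring
  · ext b a
    rw [Matrix.add_apply, Matrix.of_apply, Matrix.of_apply, fl_comm a i j, sgn_fl,
      sgf_fl_ne (Ne.symm h), Matrix.zero_apply]
    rcases lt_or_gt_of_ne h with h1 | h1
    · rw [if_neg (asymm h1), if_pos h1]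
      split_ifs <;> ring
    · rw [if_pos h1, if_neg (asymm h1)]
      split_ifs <;> ring

theorem Pm_transpose (n : ℕ) : (Pm n)ᵀ = Pm n := by
  unfold Pm
  rw [Matrix.diagonal_transpose]

theorem Pm_Pm (n : ℕ) : Pm n * Pm n = 1 := by
  unfold Pm
  rw [Matrix.diagonal_mul_diagonal]
  simp only [par_mul_self]
  exact Matrix.diagonal_one

theorem fm_Pm (j : Fin n) (c : (Fin n → Bool) → ℝ) : fm j c * Pm n = -(Pm n * fm j c) := by
  unfold Pm
  ext b a
  rw [Matrix.mul_diagonal, Matrix.neg_apply, Matrix.diagonal_mul, fm_apply]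
  split_ifs with h
  · rw [h, par_fl]; ring
  · ring

theorem psi_Pm (j : Fin n) : psi j * Pm n = -(Pm n * psi j) := fm_Pm j _
theorem phi_Pm (j : Fin n) : phi j * Pm n = -(Pm n * phi j) := fm_Pm j _

theorem Xm_Pm (p : Fin n → ℝ) : Xm p * Pm n = Pm n * Xm p := by
  unfold Xm Pm
  rw [Matrix.diagonal_mul_diagonal, Matrix.diagonal_mul_diagonal]
  congr 1
  funext a
  ring

theorem Xm_transpose (p : Fin n → ℝ) : (Xm p)ᵀ = Xm p := by
  unfold Xm
  rw [Matrix.diagonal_transpose]

theorem xw_fl (p : Fin n → ℝ) (a : Fin n → Bool) (j : Fin n) :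
    xw p (fl a j) * (if a j = true then p j else 1 - p j)
      = xw p a * (if a j = true then 1 - p j else p j) := by
  unfold xw
  rw [← Finset.mul_prod_erase univ _ (Finset.mem_univ j),
      ← Finset.mul_prod_erase univ
        (fun k => if a k = true then p k else 1 - p k) (Finset.mem_univ j)]
  have h : ∏ x ∈ univ.erase j, (if fl a j x = true then p x else 1 - p x)
      = ∏ x ∈ univ.erase j, (if a x = true then p x else 1 - p x) := by
    apply Finset.prod_congr rfl
    intro k hk
    rw [fl_ne a (Finset.ne_of_mem_erase hk)]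
  rw [h, fl_self]
  cases a j
  · simp; ring
  · simp; ring

theorem xw_fl_true (p : Fin n → ℝ) (a : Fin n → Bool) (j : Fin n) (h0 : 0 < p j)
    (ha : a j = true) : xw p (fl a j) = (1 - p j) / p j * xw p a := by
  have := xw_fl p a j
  rw [if_pos ha, if_pos ha] at this
  field_simp
  linarith

theorem xw_fl_false (p : Fin n → ℝ) (a : Fin n → Bool) (j : Fin n) (h1 : p j < 1)
    (ha : ¬ a j = true) : xw p (fl a j) = p j / (1 - p j) * xw p a := by
  have := xw_fl p a j
  rw [if_neg ha, if_neg ha] at this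
  have h : 1 - p j ≠ 0 := by linarith
  field_simp
  linarith

theorem cs_add {p : ℝ} (h0 : 0 < p) (h1 : p < 1) :
    (1 + (1 - 2 * p) ^ 2) / (1 - (1 - 2 * p) ^ 2) + (2 * (1 - 2 * p)) / (1 - (1 - 2 * p) ^ 2)
      = (1 - p) / p := by
  have hp : 1 - p ≠ 0 := by linarith
  have hp' : p ≠ 0 := h0.ne'
  have : 1 - (1 - 2 * p) ^ 2 = 4 * (p * (1 - p)) := by ring
  rw [this]
  field_simp
  ring

theorem cs_sub {p : ℝ} (h0 : 0 < p) (h1 : p < 1) :
    (1 + (1 - 2 * p) ^ 2) / (1 - (1 - 2 * p) ^ 2) - (2 * (1 - 2 * p)) / (1 - (1 - 2 * p) ^ 2)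
      = p / (1 - p) := by
  have hp : 1 - p ≠ 0 := by linarith
  have hp' : p ≠ 0 := h0.ne'
  have : 1 - (1 - 2 * p) ^ 2 = 4 * (p * (1 - p)) := by ring
  rw [this]
  field_simp
  ring

theorem Xm_psi (p : Fin n → ℝ) (j : Fin n) (h0 : 0 < p j) (h1 : p j < 1) :
    Xm p * psi j = (((1 + (1 - 2 * p j) ^ 2) / (1 - (1 - 2 * p j) ^ 2)) • psi j
      + ((2 * (1 - 2 * p j)) / (1 - (1 - 2 * p j) ^ 2)) • phi j) * Xm p := by
  have e1 := cs_add h0 h1
  have e2 := cs_sub h0 h1
  generalize (1 + (1 - 2 * p j) ^ 2) / (1 - (1 - 2 * p j) ^ 2) = C at e1 e2 ⊢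
  generalize (2 * (1 - 2 * p j)) / (1 - (1 - 2 * p j) ^ 2) = S at e1 e2 ⊢
  rw [psi_eq, phi_eq]
  unfold Xm
  ext b a
  rw [Matrix.diagonal_mul, Matrix.mul_diagonal, Matrix.add_apply, Matrix.smul_apply,
    Matrix.smul_apply, fm_apply, fm_apply]
  by_cases hb : b = fl a j
  · rw [if_pos hb, if_pos hb, hb]
    unfold sgf
    by_cases ha : a j = true
    · rw [xw_fl_true p a j h0 ha, if_pos ha, smul_eq_mul, smul_eq_mul, ← e1]
      ring
    · rw [xw_fl_false p a j h1 ha, if_neg ha, smul_eq_mul, smul_eq_mul, ← e2]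
      ring
  · rw [if_neg hb, if_neg hb]
    simp

theorem Xm_phi (p : Fin n → ℝ) (j : Fin n) (h0 : 0 < p j) (h1 : p j < 1) :
    Xm p * phi j = (((2 * (1 - 2 * p j)) / (1 - (1 - 2 * p j) ^ 2)) • psi j
      + ((1 + (1 - 2 * p j) ^ 2) / (1 - (1 - 2 * p j) ^ 2)) • phi j) * Xm p := by
  have e1 := cs_add h0 h1
  have e2 := cs_sub h0 h1
  generalize (1 + (1 - 2 * p j) ^ 2) / (1 - (1 - 2 * p j) ^ 2) = C at e1 e2 ⊢
  generalize (2 * (1 - 2 * p j)) / (1 - (1 - 2 * p j) ^ 2) = S at e1 e2 ⊢
  rw [psi_eq, phi_eq]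
  unfold Xm
  ext b a
  rw [Matrix.diagonal_mul, Matrix.mul_diagonal, Matrix.add_apply, Matrix.smul_apply,
    Matrix.smul_apply, fm_apply, fm_apply]
  by_cases hb : b = fl a j
  · rw [if_pos hb, if_pos hb, hb]
    unfold sgf
    by_cases ha : a j = true
    · rw [xw_fl_true p a j h0 ha, if_pos ha, smul_eq_mul, smul_eq_mul, ← e1]
      ring
    · rw [xw_fl_false p a j h1 ha, if_neg ha, smul_eq_mul, smul_eq_mul, ← e2]
      ring
  · rw [if_neg hb, if_neg hb]
    simp

theorem fl_inj_right (b : Fin n → Bool) {i j : Fin n} (h : fl b i = fl b j) : i = j := by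
  by_contra hne
  have h1 := congrFun h i
  rw [fl_self, fl_ne b hne] at h1
  cases hb : b i <;> rw [hb] at h1 <;> simp at h1

theorem gam_apply (w : Fin n → ℝ) (a b : Fin n → Bool) :
    gam w a b = ∑ j, if a = fl b j then Real.sqrt (w j) * sgn j b else 0 := by
  unfold gam
  rw [Matrix.sum_apply]
  apply Finset.sum_congr rfl
  intro j _
  rw [Matrix.smul_apply, psi_eq, fm_apply, smul_eq_mul]
  split_ifs <;> simp

theorem gam_apply_sq (w : Fin n → ℝ) (hw : ∀ i, 0 ≤ w i) (a b : Fin n → Bool) :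
    (gam w a b) ^ 2 = ∑ j, if a = fl b j then w j else 0 := by
  rw [gam_apply]
  by_cases h : ∃ j, a = fl b j
  · obtain ⟨j, hj⟩ := h
    rw [Finset.sum_eq_single j, Finset.sum_eq_single j, if_pos hj, if_pos hj, mul_pow,
      Real.sq_sqrt (hw j), sq, sgn_mul_self, mul_one]
    · intro k _ hk
      rw [if_neg]
      intro hk'
      exact hk (fl_inj_right b (hk' ▸ hj))
    · intro h; exact absurd (Finset.mem_univ _) h
    · intro k _ hk
      rw [if_neg]
      intro hk'
      exact hk (fl_inj_right b (hk' ▸ hj))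
    · intro h; exact absurd (Finset.mem_univ _) h
  · push Not at h
    rw [Finset.sum_eq_zero, Finset.sum_eq_zero]
    · ring
    · intro j _
      rw [if_neg (h j)]
    · intro j _
      rw [if_neg (h j)]

end Pool.Agent.Lib.MP_0430e4_lc.Ferm
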