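import Pool.Agent.Lib.MP_0430e4_lc.Ferm.JW

/-!
# Module LAD: ladder operators of the averaged Gaussian matrix

`b_i = ∑_j √w_j/(t_j² - t'_i²) (t'_i ψ_j + t_j φ_j)` satisfies `ρ_i X_bd b_i = b_i X_bd`.
-/

set_option autoImplicit false

namespace Pool.Agent.Lib.MP_0430e4_lc.Ferm

open Finset Matrix

variable {n : ℕ}

/-- linear combinations of the Majorana matrices -/
noncomputable def lin (u v : Fin n → ℝ) : Matrix (Fin n → Bool) (Fin n → Bool) ℝ :=
  ∑ j, (u j • psi j + v j • phi j)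

theorem lin_add (u v u' v' : Fin n → ℝ) :
    lin u v + lin u' v' = lin (fun j => u j + u' j) (fun j => v j + v' j) := by
  unfold lin
  rw [← Finset.sum_add_distrib]
  apply Finset.sum_congr rfl
  intro j _
  module

theorem lin_smul (r : ℝ) (u v : Fin n → ℝ) :
    r • lin u v = lin (fun j => r * u j) (fun j => r * v j) := by
  unfold lin
  rw [Finset.smul_sum]
  apply Finset.sum_congr rfl
  intro j _
  module

theorem lin_transpose (u v : Fin n → ℝ) : (lin u v)ᵀ = lin u (fun j => - v j) := by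
  unfold lin
  rw [Matrix.transpose_sum]
  apply Finset.sum_congr rfl
  intro j _
  rw [Matrix.transpose_add, Matrix.transpose_smul, Matrix.transpose_smul, psi_transpose,
    phi_transpose]
  module

theorem lin_Pm (u v : Fin n → ℝ) : lin u v * Pm n = -(Pm n * lin u v) := by
  unfold lin
  rw [Finset.sum_mul, Finset.mul_sum, ← Finset.sum_neg_distrib]
  apply Finset.sum_congr rfl
  intro j _
  rw [add_mul, mul_add, smul_mul_assoc, smul_mul_assoc, psi_Pm, phi_Pm, mul_smul_comm,
    mul_smul_comm]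
  module

theorem lin_anticomm (u v u' v' : Fin n → ℝ) :
    lin u v * lin u' v' + lin u' v' * lin u v
      = (2 * (∑ j, u j * u' j - ∑ j, v j * v' j)) • (1 : Matrix _ _ ℝ) := by
  have hpt : ∀ i j : Fin n, (u i • psi i + v i • phi i) * (u' j • psi j + v' j • phi j)
      + (u' j • psi j + v' j • phi j) * (u i • psi i + v i • phi i)
      = if i = j then (2 * (u i * u' i - v i * v' i)) • (1 : Matrix _ _ ℝ) else 0 := by
    intro i j
    have e1 := psi_psi i j
    have e2 := phi_phi i j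
    have e3 := psi_phi i j
    have e4 := psi_phi j i
    have : (u i • psi i + v i • phi i) * (u' j • psi j + v' j • phi j)
      + (u' j • psi j + v' j • phi j) * (u i • psi i + v i • phi i)
      = (u i * u' j) • (psi i * psi j + psi j * psi i) + (v i * v' j) • (phi i * phi j + phi j * phi i)
        + (u i * v' j) • (psi i * phi j + phi j * psi i) + (v i * u' j) • (psi j * phi i + phi i * psi j) := by
      simp only [add_mul, mul_add, smul_mul_assoc, mul_smul_comm]
      module
    rw [this, e1, e2, e3, e4]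
    by_cases h : i = j
    · subst h
      rw [if_pos rfl, if_pos rfl, if_pos rfl]
      module
    · rw [if_neg h, if_neg h, if_neg h]
      simp
  unfold lin
  rw [Finset.sum_mul_sum, Finset.sum_mul_sum]
  rw [Finset.sum_comm (f := fun i j => (u' i • psi i + v' i • phi i) * (u j • psi j + v j • phi j))]
  rw [← Finset.sum_add_distrib]
  simp only [← Finset.sum_add_distrib, hpt]
  simp only [Finset.sum_ite_eq, Finset.mem_univ, if_true]
  rw [← Finset.sum_smul]
  congr 1
  rw [← Finset.sum_sub_distrib, Finset.mul_sum]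

theorem Xm_lin (p : Fin n → ℝ) (h0 : ∀ j, 0 < p j) (h1 : ∀ j, p j < 1) (u v : Fin n → ℝ) :
    Xm p * lin u v = lin
      (fun j => ((1 + (1 - 2 * p j) ^ 2) / (1 - (1 - 2 * p j) ^ 2)) * u j
        + ((2 * (1 - 2 * p j)) / (1 - (1 - 2 * p j) ^ 2)) * v j)
      (fun j => ((2 * (1 - 2 * p j)) / (1 - (1 - 2 * p j) ^ 2)) * u j
        + ((1 + (1 - 2 * p j) ^ 2) / (1 - (1 - 2 * p j) ^ 2)) * v j) * Xm p := by
  unfold lin
  rw [Finset.mul_sum, Finset.sum_mul]
  apply Finset.sum_congr rfl
  intro j _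
  rw [mul_add, mul_smul_comm, mul_smul_comm, Xm_psi p j (h0 j) (h1 j), Xm_phi p j (h0 j) (h1 j),
    ← smul_mul_assoc, ← smul_mul_assoc, ← add_mul]
  congr 1
  module

theorem gam_eq (w : Fin n → ℝ) : gam w = lin (fun j => Real.sqrt (w j)) (fun _ => 0) := by
  unfold gam lin
  apply Finset.sum_congr rfl
  intro j _
  rw [zero_smul, add_zero]

theorem gam_transpose (w : Fin n → ℝ) : (gam w)ᵀ = gam w := by
  rw [gam_eq, lin_transpose]
  simp

theorem gam_mul_self (w : Fin n → ℝ) (hw : ∀ i, 0 ≤ w i) (hw1 : ∑ i, w i = 1) :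
    gam w * gam w = 1 := by
  have h := lin_anticomm (fun j => Real.sqrt (w j)) (fun _ => (0 : ℝ))
    (fun j => Real.sqrt (w j)) (fun _ => (0 : ℝ))
  rw [← gam_eq] at h
  have e : ∑ j, Real.sqrt (w j) * Real.sqrt (w j) = 1 := by
    rw [← hw1]
    apply Finset.sum_congr rfl
    intro j _
    exact Real.mul_self_sqrt (hw j)
  rw [e] at h
  simp only [mul_zero, Finset.sum_const_zero, sub_zero, mul_one] at h
  rw [← two_smul ℝ (gam w * gam w)] at h
  exact smul_right_injective _ (two_ne_zero' ℝ) h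

theorem gam_Pm (w : Fin n → ℝ) : gam w * Pm n = -(Pm n * gam w) := by
  rw [gam_eq]; exact lin_Pm _ _

theorem Xbd_transpose (p w : Fin n → ℝ) : (Xbd p w)ᵀ = Xbd p w := by
  unfold Xbd
  rw [Matrix.transpose_smul, Matrix.transpose_add, Matrix.transpose_mul, Matrix.transpose_mul,
    Xm_transpose, gam_transpose, mul_assoc]

theorem Xbd_gam (p w : Fin n → ℝ) (hw : ∀ i, 0 ≤ w i) (hw1 : ∑ i, w i = 1) :
    Xbd p w * gam w = gam w * Xbd p w := by
  have h := gam_mul_self w hw hw1
  unfold Xbd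
  rw [smul_mul_assoc, mul_smul_comm, add_mul, mul_add]
  congr 1
  rw [mul_assoc (gam w * Xm p), h, mul_one, ← mul_assoc (gam w) (gam w * Xm p),
    ← mul_assoc (gam w) (gam w), h, one_mul, add_comm]

theorem Xbd_Pm (p w : Fin n → ℝ) : Xbd p w * Pm n = Pm n * Xbd p w := by
  unfold Xbd
  rw [smul_mul_assoc, mul_smul_comm, add_mul, mul_add, Xm_Pm]
  congr 2
  calc gam w * Xm p * gam w * Pm n = gam w * Xm p * (gam w * Pm n) := by rw [mul_assoc]
    _ = -(gam w * (Xm p * Pm n) * gam w) := by rw [gam_Pm]; noncomm_ring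
    _ = -((gam w * Pm n) * Xm p * gam w) := by rw [Xm_Pm]; noncomm_ring
    _ = Pm n * (gam w * Xm p * gam w) := by rw [gam_Pm]; noncomm_ring

theorem sum_xw (p : Fin n → ℝ) : ∑ a, xw p a = 1 := by
  unfold xw
  have h := Finset.prod_univ_sum (fun _ : Fin n => (Finset.univ : Finset Bool))
    (fun i b => if b = true then p i else 1 - p i)
  rw [Fintype.piFinset_univ] at h
  rw [← h]
  apply Finset.prod_eq_one
  intro i _
  simp

theorem Xbd_trace (p w : Fin n → ℝ) (hw : ∀ i, 0 ≤ w i) (hw1 : ∑ i, w i = 1) :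
    (Xbd p w).trace = 1 := by
  unfold Xbd
  rw [Matrix.trace_smul, Matrix.trace_add, mul_assoc, Matrix.trace_mul_comm (gam w), mul_assoc,
    gam_mul_self w hw hw1, mul_one]
  have : (Xm p).trace = 1 := by
    unfold Xm
    rw [Matrix.trace_diagonal, sum_xw]
  rw [this]
  norm_num

/-- the abstract ladder computation -/
theorem ladder_avg {k : Type*} [Fintype k] [DecidableEq k] {X U b : Matrix k k ℝ} {ρ κ : ℝ}
    (hUU : U * U = 1) (hbU : b * U = -(U * b))
    (h : ρ • (X * b) = b * X + κ • (X * U + U * X)) :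
    ρ • (((1 / 2 : ℝ) • (X + U * X * U)) * b) = b * ((1 / 2 : ℝ) • (X + U * X * U)) := by
  have hUb : U * b = -(b * U) := by rw [hbU, neg_neg]
  have e1 : ρ • (U * X * U * b) = b * (U * X * U) - κ • (X * U + U * X) := by
    calc ρ • (U * X * U * b) = -(U * (ρ • (X * b)) * U) := by
          rw [mul_assoc (U * X), hUb, mul_smul_comm, smul_mul_assoc]
          rw [mul_neg, smul_neg]
          simp only [mul_assoc]
      _ = -(U * (b * X + κ • (X * U + U * X)) * U) := by rw [h]
      _ = -((U * b) * X * U + κ • (U * X * (U * U) + (U * U) * X * U)) := by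
          simp only [mul_add, add_mul, mul_smul_comm, smul_mul_assoc, mul_assoc]
      _ = _ := by
          rw [hUU, hUb, mul_one, one_mul]
          simp only [neg_mul, mul_assoc]
          module
  rw [smul_mul_assoc, mul_smul_comm, smul_comm, add_mul, smul_add, e1, h, mul_add]
  congr 1
  abel

variable (p w : Fin (n + 1) → ℝ) (lam : Fin n → ℝ)

/-- first coefficient vector of `b_i` -/
noncomputable def bu (i : Fin n) (j : Fin (n + 1)) : ℝ :=
  Real.sqrt (w j) * (1 - 2 * lam i) / ((1 - 2 * p j) ^ 2 - (1 - 2 * lam i) ^ 2)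

/-- second coefficient vector of `b_i` -/
noncomputable def bv (i : Fin n) (j : Fin (n + 1)) : ℝ :=
  Real.sqrt (w j) * (1 - 2 * p j) / ((1 - 2 * p j) ^ 2 - (1 - 2 * lam i) ^ 2)

theorem Xm_b (hp0 : ∀ i, 0 < p i) (hp1 : ∀ i, p i < 1) (i : Fin n) (hl1 : lam i < 1)
    (hd : ∀ j, (1 - 2 * p j) ^ 2 - (1 - 2 * lam i) ^ 2 ≠ 0) :
    (lam i / (1 - lam i)) • (Xm p * lin (bu p w lam i) (bv p w lam i))
      = lin (bu p w lam i) (bv p w lam i) * Xm p
        + (1 / (1 + (1 - 2 * lam i))) • (Xm p * gam w + gam w * Xm p) := by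
  rw [gam_eq, Xm_lin p hp0 hp1, Xm_lin p hp0 hp1, ← smul_mul_assoc, ← add_mul, ← smul_mul_assoc,
    ← add_mul, lin_smul, lin_add, lin_smul, lin_add]
  congr 1
  have hl : 1 - lam i ≠ 0 := by linarith
  have hl' : 1 + (1 - 2 * lam i) ≠ 0 := by linarith
  congr 1
  · funext j
    have h4 : 1 - (1 - 2 * p j) ^ 2 ≠ 0 := by
      have : 1 - (1 - 2 * p j) ^ 2 = 4 * (p j * (1 - p j)) := by ring
      rw [this]
      have h5 := hp0 j
      have h6 : 0 < 1 - p j := by linarith [hp1 j]
      positivity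
    have hdj := hd j
    unfold bu bv
    generalize Real.sqrt (w j) = W
    have h2 : lam i / (1 - lam i) = (1 - (1 - 2 * lam i)) / (1 + (1 - 2 * lam i)) := by
      have e1 : 1 - (1 - 2 * lam i) = 2 * lam i := by ring
      have e2 : 1 + (1 - 2 * lam i) = 2 * (1 - lam i) := by ring
      rw [e1, e2, mul_div_mul_left _ _ (two_ne_zero' ℝ)]
    rw [h2]
    generalize 1 - 2 * lam i = s at *
    generalize 1 - 2 * p j = t at *
    field_simp
    ring
  · funext j
    have h4 : 1 - (1 - 2 * p j) ^ 2 ≠ 0 := by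
      have : 1 - (1 - 2 * p j) ^ 2 = 4 * (p j * (1 - p j)) := by ring
      rw [this]
      have h5 := hp0 j
      have h6 : 0 < 1 - p j := by linarith [hp1 j]
      positivity
    have hdj := hd j
    unfold bu bv
    generalize Real.sqrt (w j) = W
    have h2 : lam i / (1 - lam i) = (1 - (1 - 2 * lam i)) / (1 + (1 - 2 * lam i)) := by
      have e1 : 1 - (1 - 2 * lam i) = 2 * lam i := by ring
      have e2 : 1 + (1 - 2 * lam i) = 2 * (1 - lam i) := by ring
      rw [e1, e2, mul_div_mul_left _ _ (two_ne_zero' ℝ)]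
    rw [h2]
    generalize 1 - 2 * lam i = s at *
    generalize 1 - 2 * p j = t at *
    field_simp
    ring

section CAR

variable (hw : ∀ i, 0 < w i)
  (hinj : Function.Injective lam) (hl1 : ∀ i, lam i < 1 / 2)
  (hd : ∀ i j, (1 - 2 * p j) ^ 2 - (1 - 2 * lam i) ^ 2 ≠ 0)
  (hsec : ∀ j, ∑ i, w i / ((1 - 2 * p i) ^ 2 - (1 - 2 * lam j) ^ 2) = 0)

include hinj hl1 in
theorem sq_ne {i k : Fin n} (hik : i ≠ k) : (1 - 2 * lam i) ^ 2 - (1 - 2 * lam k) ^ 2 ≠ 0 := by
  intro h
  have h1 : (2 * (lam k - lam i)) * ((1 - 2 * lam i) + (1 - 2 * lam k)) = 0 := by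
    linear_combination h
  rcases mul_eq_zero.mp h1 with h2 | h2
  · exact hik (hinj (by linarith))
  · have := hl1 i
    have := hl1 k
    linarith

include hinj hl1 hd hsec in
theorem sum_ww {i k : Fin n} (hik : i ≠ k) :
    ∑ j, w j / (((1 - 2 * p j) ^ 2 - (1 - 2 * lam i) ^ 2) * ((1 - 2 * p j) ^ 2 - (1 - 2 * lam k) ^ 2))
      = 0 := by
  have hne := sq_ne lam hinj hl1 hik
  have e : ∀ j, w j / (((1 - 2 * p j) ^ 2 - (1 - 2 * lam i) ^ 2)
        * ((1 - 2 * p j) ^ 2 - (1 - 2 * lam k) ^ 2))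
      = (1 / ((1 - 2 * lam i) ^ 2 - (1 - 2 * lam k) ^ 2))
        * (w j / ((1 - 2 * p j) ^ 2 - (1 - 2 * lam i) ^ 2)
          - w j / ((1 - 2 * p j) ^ 2 - (1 - 2 * lam k) ^ 2)) := by
    intro j
    have h1 := hd i j
    have h2 := hd k j
    rw [div_sub_div _ _ h1 h2, div_mul_div_comm, div_eq_div_iff (mul_ne_zero h1 h2)
      (mul_ne_zero hne (mul_ne_zero h1 h2))]
    ring
  simp only [e]
  rw [← Finset.mul_sum, Finset.sum_sub_distrib, hsec, hsec, sub_zero, mul_zero]

include hw hinj hl1 hd hsec in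
theorem bu_bu {i k : Fin n} (hik : i ≠ k) : ∑ j, bu p w lam i j * bu p w lam k j = 0 := by
  have e : ∀ j, bu p w lam i j * bu p w lam k j = ((1 - 2 * lam i) * (1 - 2 * lam k))
      * (w j / (((1 - 2 * p j) ^ 2 - (1 - 2 * lam i) ^ 2)
        * ((1 - 2 * p j) ^ 2 - (1 - 2 * lam k) ^ 2))) := by
    intro j
    have hs := Real.mul_self_sqrt (hw j).le
    unfold bu
    rw [div_mul_div_comm, mul_div_assoc']
    congr 1
    linear_combination ((1 - 2 * lam i) * (1 - 2 * lam k)) * hs
  simp only [e]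
  rw [← Finset.mul_sum, sum_ww p w lam hinj hl1 hd hsec hik, mul_zero]

include hw hinj hl1 hd hsec in
theorem bv_bv {i k : Fin n} (hik : i ≠ k) : ∑ j, bv p w lam i j * bv p w lam k j = 0 := by
  have e : ∀ j, bv p w lam i j * bv p w lam k j
      = (1 - 2 * lam i) ^ 2 * (w j / (((1 - 2 * p j) ^ 2 - (1 - 2 * lam i) ^ 2)
        * ((1 - 2 * p j) ^ 2 - (1 - 2 * lam k) ^ 2)))
        + w j / ((1 - 2 * p j) ^ 2 - (1 - 2 * lam k) ^ 2) := by
    intro j
    have h1 := hd i j
    have h2 := hd k j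
    have hs := Real.mul_self_sqrt (hw j).le
    unfold bv
    rw [div_mul_div_comm, mul_div_assoc', div_add_div _ _ (mul_ne_zero h1 h2) h2,
      div_eq_div_iff (mul_ne_zero h1 h2) (mul_ne_zero (mul_ne_zero h1 h2) h2)]
    linear_combination ((1 - 2 * p j) ^ 2 * (((1 - 2 * p j) ^ 2 - (1 - 2 * lam i) ^ 2)
      * ((1 - 2 * p j) ^ 2 - (1 - 2 * lam k) ^ 2) * ((1 - 2 * p j) ^ 2 - (1 - 2 * lam k) ^ 2))) * hs
  simp only [e]
  rw [Finset.sum_add_distrib, ← Finset.mul_sum, sum_ww p w lam hinj hl1 hd hsec hik, mul_zero,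
    hsec, add_zero]

include hw hd hsec in
theorem bb_self (i : Fin n) :
    ∑ j, bu p w lam i j * bu p w lam i j - ∑ j, bv p w lam i j * bv p w lam i j = 0 := by
  rw [← Finset.sum_sub_distrib]
  have e : ∀ j, bu p w lam i j * bu p w lam i j - bv p w lam i j * bv p w lam i j
      = - (w j / ((1 - 2 * p j) ^ 2 - (1 - 2 * lam i) ^ 2)) := by
    intro j
    have h1 := hd i j
    have hs := Real.mul_self_sqrt (hw j).le
    unfold bu bv
    rw [div_mul_div_comm, div_mul_div_comm, ← sub_div, ← neg_div,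
      div_eq_div_iff (mul_ne_zero h1 h1) h1]
    linear_combination (((1 - 2 * lam i) ^ 2 - (1 - 2 * p j) ^ 2)
      * ((1 - 2 * p j) ^ 2 - (1 - 2 * lam i) ^ 2)) * hs
  simp only [e]
  rw [Finset.sum_neg_distrib, hsec, neg_zero]

include hw hd hl1 in
theorem bb_pos (i : Fin n) :
    0 < ∑ j, bu p w lam i j * bu p w lam i j + ∑ j, bv p w lam i j * bv p w lam i j := by
  have h1 : 0 < ∑ j, bu p w lam i j * bu p w lam i j := by
    apply Finset.sum_pos
    · intro j _
      apply mul_self_pos.mpr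
      unfold bu
      have h2 : 0 < 1 - 2 * lam i := by linarith [hl1 i]
      exact div_ne_zero (mul_pos (Real.sqrt_pos.mpr (hw j)) h2).ne' (hd i j)
    · exact Finset.univ_nonempty
  have h2 : 0 ≤ ∑ j, bv p w lam i j * bv p w lam i j :=
    Finset.sum_nonneg fun j _ => mul_self_nonneg _
  linarith

include hw hsec in
theorem bu_gam (i : Fin n) : ∑ j, bu p w lam i j * Real.sqrt (w j) = 0 := by
  have e : ∀ j, bu p w lam i j * Real.sqrt (w j)
      = (1 - 2 * lam i) * (w j / ((1 - 2 * p j) ^ 2 - (1 - 2 * lam i) ^ 2)) := by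
    intro j
    have hs := Real.mul_self_sqrt (hw j).le
    unfold bu
    rw [div_mul_eq_mul_div, mul_div_assoc']
    congr 1
    linear_combination (1 - 2 * lam i) * hs
  simp only [e]
  rw [← Finset.mul_sum, hsec, mul_zero]

/-- normalising constant -/
noncomputable def kap (i : Fin n) : ℝ :=
  2 * (∑ j, bu p w lam i j * bu p w lam i j + ∑ j, bv p w lam i j * bv p w lam i j)

/-- the normalised ladder operators -/
noncomputable def bop (i : Fin n) : Matrix (Fin (n + 1) → Bool) (Fin (n + 1) → Bool) ℝ :=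
  (Real.sqrt (kap p w lam i))⁻¹ • lin (bu p w lam i) (bv p w lam i)

include hw hinj hl1 hd hsec in
theorem bop_bop (i k : Fin n) :
    bop p w lam i * bop p w lam k = -(bop p w lam k * bop p w lam i) := by
  have h := lin_anticomm (bu p w lam i) (bv p w lam i) (bu p w lam k) (bv p w lam k)
  have h0 : ∑ j, bu p w lam i j * bu p w lam k j - ∑ j, bv p w lam i j * bv p w lam k j = 0 := by
    by_cases hik : i = k
    · subst hik
      exact bb_self p w lam hw hd hsec i
    · rw [bu_bu p w lam hw hinj hl1 hd hsec hik, bv_bv p w lam hw hinj hl1 hd hsec hik, sub_zero]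
  rw [h0, mul_zero, zero_smul] at h
  have h' := eq_neg_of_add_eq_zero_left h
  unfold bop
  rw [smul_mul_smul_comm, smul_mul_smul_comm, h', smul_neg, mul_comm (Real.sqrt (kap p w lam i))⁻¹]

include hw hinj hl1 hd hsec in
theorem bop_bopT (i k : Fin n) :
    bop p w lam i * (bop p w lam k)ᵀ + (bop p w lam k)ᵀ * bop p w lam i
      = if i = k then 1 else 0 := by
  have h := lin_anticomm (bu p w lam i) (bv p w lam i) (bu p w lam k) (fun j => -bv p w lam k j)
  rw [← lin_transpose] at h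
  have h0 : ∑ j, bu p w lam i j * bu p w lam k j - ∑ j, bv p w lam i j * -bv p w lam k j
      = ∑ j, bu p w lam i j * bu p w lam k j + ∑ j, bv p w lam i j * bv p w lam k j := by
    simp only [mul_neg, Finset.sum_neg_distrib, sub_neg_eq_add]
  rw [h0] at h
  unfold bop
  rw [Matrix.transpose_smul, smul_mul_smul_comm, smul_mul_smul_comm,
    mul_comm (Real.sqrt (kap p w lam k))⁻¹, ← smul_add, h]
  by_cases hik : i = k
  · subst hik
    rw [if_pos rfl, smul_smul]
    have hk : 0 < kap p w lam i := by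
      unfold kap
      have := bb_pos p w lam hw hl1 hd i
      linarith
    have hk2 : 2 * (∑ j, bu p w lam i j * bu p w lam i j + ∑ j, bv p w lam i j * bv p w lam i j)
      = Real.sqrt (kap p w lam i) * Real.sqrt (kap p w lam i) := by
      rw [Real.mul_self_sqrt hk.le, kap]
    rw [hk2]
    have hk3 : Real.sqrt (kap p w lam i) ≠ 0 := (Real.sqrt_pos.mpr hk).ne'
    have : (Real.sqrt (kap p w lam i))⁻¹ * (Real.sqrt (kap p w lam i))⁻¹
        * (Real.sqrt (kap p w lam i) * Real.sqrt (kap p w lam i)) = 1 := by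
      field_simp
    rw [this, one_smul]
  · rw [if_neg hik, bu_bu p w lam hw hinj hl1 hd hsec hik, bv_bv p w lam hw hinj hl1 hd hsec hik]
    simp

include hw hsec in
theorem bop_gam (i : Fin n) : bop p w lam i * gam w = -(gam w * bop p w lam i) := by
  have h := lin_anticomm (bu p w lam i) (bv p w lam i) (fun j => Real.sqrt (w j)) (fun _ => 0)
  rw [← gam_eq, bu_gam p w lam hw hsec i] at h
  simp only [mul_zero, Finset.sum_const_zero, sub_zero, zero_smul] at h
  have h' := eq_neg_of_add_eq_zero_left h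
  unfold bop
  rw [smul_mul_assoc, mul_smul_comm, h', smul_neg]

theorem bop_Pm (i : Fin n) :
    bop p w lam i * Pm (n + 1) = -(Pm (n + 1) * bop p w lam i) := by
  unfold bop
  rw [smul_mul_assoc, mul_smul_comm, lin_Pm, smul_neg]

end CAR

end Pool.Agent.Lib.MP_0430e4_lc.Ferm
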